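import Pool.Agent.Q206.ATot.Table

/-!
# A core set has the enumeration degree of a point of the Hilbert cube
-/

namespace Q206.ATot

open Encodable Pool.Agent.Helper446 Pool.Agent.Helper446.RE Pool.Agent.Helper446.CB Pool.Agent.H288R3.CGC

variable {E : Set ℕ} {cf : ℕ → ℕ → Bool} {th : ℕ → ℕ → ℕ → Bool}

/-- enumerability of the events at `E` -/
theorem Core.ein_some (h : Core E cf th) (hc : CD cf th) {u : ℕ → ℕ → ℕ → ℕ → ℕ → Bool}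
    (hu : Computable fun p : ((ℕ × (ℕ × ℕ)) × ℕ) × ℕ => u p.1.1.1 p.1.1.2.1 p.1.1.2.2 p.1.2 p.2)
    (hsat : ∀ κ m k, k ≤ 2 ^ m → Sat E cf (u κ m k)) :
    EIn E fun v : ℕ × (ℕ × ℕ) => v.2.2 ≤ 2 ^ v.2.1 ∧ Some' E cf (u v.1 v.2.1 v.2.2) := by
  refine ⟨fun v c => v.2.2 ≤ 2 ^ v.2.1 ∧ ∃ s : ℕ, ∀ τ < 2 ^ s, ind cf s τ = false ∨
    ((∃ i ∈ c, i < s ∧ τ.testBit i = false) ∨
      exB (fun s' => u v.1 v.2.1 v.2.2 s' (τ % 2 ^ s')) (s + 1) = true), ?_, ?_⟩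
  · refine RE.and (RE.le (by fun_prop) (by fun_prop)) ?_
    refine RE.exN (p := fun (x : (ℕ × (ℕ × ℕ)) × List ℕ) s => ∀ τ < 2 ^ s, ind cf s τ = false ∨
      ((∃ i ∈ x.2, i < s ∧ τ.testBit i = false) ∨
        exB (fun s' => u x.1.1 x.1.2.1 x.1.2.2 s' (τ % 2 ^ s')) (s + 1) = true)) ?_
    refine RE.all_lt (p := fun (y : ((ℕ × (ℕ × ℕ)) × List ℕ) × ℕ) τ => ind cf y.2 τ = false ∨
      ((∃ i ∈ y.1.2, i < y.2 ∧ τ.testBit i = false) ∨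
        exB (fun s' => u y.1.1.1 y.1.1.2.1 y.1.1.2.2 s' (τ % 2 ^ s')) (y.2 + 1) = true)) ?_
      (by fun_prop)
    refine RE.or ?_ (RE.or ?_ ?_)
    · exact RE.eq (hc.cind (by fun_prop) (by fun_prop)) (by fun_prop)
    · refine RE.ex_mem (p := fun (z : (((ℕ × (ℕ × ℕ)) × List ℕ) × ℕ) × ℕ) (i : ℕ) =>
        i < z.1.2 ∧ z.2.testBit i = false) ?_ (l := fun z => z.1.1.2) (by fun_prop)
      exact RE.and (RE.lt (by fun_prop) (by fun_prop)) (RE.eq (by fun_prop) (by fun_prop))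
    · refine RE.of_bool (cex (q := fun (z : (((ℕ × (ℕ × ℕ)) × List ℕ) × ℕ) × ℕ) (s' : ℕ) =>
        u z.1.1.1.1 z.1.1.1.2.1 z.1.1.1.2.2 s' (z.2 % 2 ^ s')) ?_ (by fun_prop))
      exact hu.comp (g := fun z : ((((ℕ × (ℕ × ℕ)) × List ℕ) × ℕ) × ℕ) × ℕ =>
        ((z.1.1.1.1, z.2), z.1.2 % 2 ^ z.2)) (by fun_prop)
  · rintro ⟨κ, m, k⟩
    dsimp only
    constructor
    · rintro ⟨h1, h2⟩
      obtain ⟨c, s, hcE, h3⟩ := (h.some_iff_fin (hsat κ m k h1)).1 h2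
      refine ⟨c, ⟨h1, s, fun τ hτ => ?_⟩, hcE⟩
      by_cases h4 : ind cf s τ = true
      · right
        by_cases h5 : ∀ i ∈ c, i < s → τ.testBit i = true
        · right
          obtain ⟨s', hs', h6⟩ := h3 τ hτ h4 h5
          rw [exB_iff]
          exact ⟨s', by omega, h6⟩
        · left
          push Not at h5
          obtain ⟨i, hi, his, h6⟩ := h5
          exact ⟨i, hi, his, by simpa using h6⟩
      · left; simpa using h4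
    · rintro ⟨c, ⟨h1, s, h3⟩, hcE⟩
      refine ⟨h1, (h.some_iff_fin (hsat κ m k h1)).2 ⟨c, s, hcE, fun τ hτ h4 h5 => ?_⟩⟩
      rcases h3 τ hτ with h6 | ⟨i, hi, his, h6⟩ | h6
      · rw [h4] at h6; simp at h6
      · have := h5 i hi his
        rw [h6] at this; simp at this
      · rw [exB_iff] at h6
        obtain ⟨s', hs', h6⟩ := h6
        exact ⟨s', by omega, h6⟩

theorem CD.cUU (hc : CD cf th) : Computable fun p : ((ℕ × (ℕ × ℕ)) × ℕ) × ℕ =>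
    UU cf th p.1.1.1 p.1.1.2.1 p.1.1.2.2 p.1.2 p.2 := by
  unfold UU
  exact cfst (hc.cev (by fun_prop) (by fun_prop) (by fun_prop) (by fun_prop) (by fun_prop))

theorem CD.cWW (hc : CD cf th) : Computable fun p : ((ℕ × (ℕ × ℕ)) × ℕ) × ℕ =>
    WW cf th p.1.1.1 p.1.1.2.1 p.1.1.2.2 p.1.2 p.2 := by
  unfold WW
  exact csnd (hc.cev (by fun_prop) (by fun_prop) (by fun_prop) (by fun_prop) (by fun_prop))

theorem pos_hh_iff (w : ℕ) (x : ℕ → ℝ) :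
    0 < hh w x ↔ ((ca w : ℝ) - cb w) / ((cc w : ℝ) + 1) < x (cn w) := by
  unfold hh
  have hc : (0:ℝ) < (cc w : ℝ) + 1 := by positivity
  rw [div_lt_iff₀ hc, sub_pos, mul_comm (x (cn w))]

theorem neg_hh_iff (w : ℕ) (x : ℕ → ℝ) :
    hh w x < 0 ↔ x (cn w) < ((ca w : ℝ) - cb w) / ((cc w : ℝ) + 1) := by
  unfold hh
  have hc : (0:ℝ) < (cc w : ℝ) + 1 := by positivity
  rw [lt_div_iff₀ hc, sub_neg, mul_comm (x (cn w))]

theorem frac_lt_iff (a b c k m : ℕ) : ((a : ℝ) - b) / ((c : ℝ) + 1) < (k : ℝ) / 2 ^ m ↔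
    a * 2 ^ m < k * (c + 1) + b * 2 ^ m := by
  rw [div_lt_div_iff₀ (by positivity) (by positivity)]
  have : ((a : ℝ) - b) * 2 ^ m < k * (c + 1) ↔
      ((a * 2 ^ m : ℕ) : ℝ) < ((k * (c + 1) + b * 2 ^ m : ℕ) : ℝ) := by
    push_cast
    rw [sub_mul]
    constructor <;> intro h <;> linarith
  rw [this, Nat.cast_lt]

theorem lt_frac_iff (a b c k m : ℕ) : (k : ℝ) / 2 ^ m < ((a : ℝ) - b) / ((c : ℝ) + 1) ↔
    k * (c + 1) + b * 2 ^ m < a * 2 ^ m := by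
  rw [div_lt_div_iff₀ (by positivity) (by positivity)]
  have : (k : ℝ) * (c + 1) < ((a : ℝ) - b) * 2 ^ m ↔
      ((k * (c + 1) + b * 2 ^ m : ℕ) : ℝ) < ((a * 2 ^ m : ℕ) : ℝ) := by
    push_cast
    rw [sub_mul]
    constructor <;> intro h <;> linarith
  rw [this, Nat.cast_lt]

theorem frac_neg_iff (a b c : ℕ) : ((a : ℝ) - b) / ((c : ℝ) + 1) < 0 ↔ a < b := by
  rw [div_lt_iff₀ (by positivity), zero_mul, sub_neg, Nat.cast_lt]

theorem one_lt_frac_iff (a b c : ℕ) : 1 < ((a : ℝ) - b) / ((c : ℝ) + 1) ↔ b + c + 1 < a := by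
  rw [lt_div_iff₀ (by positivity), one_mul]
  have : (c : ℝ) + 1 < a - b ↔ ((b + c + 1 : ℕ) : ℝ) < (a : ℝ) := by
    push_cast
    constructor <;> intro h <;> linarith
  rw [this, Nat.cast_lt]

theorem Core.ns_ein (h : Core E cf th) (hc : CD cf th) :
    EIn E fun y : ℕ => y ∈ NS (xv E cf th) := by
  have hU := h.ein_some hc hc.cUU (fun κ m k hk => (h.inv κ m).satU k hk)
  have hW := h.ein_some hc hc.cWW (fun κ m k hk => (h.inv κ m).satW k hk)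
  have h1 : EIn E fun y : ℕ =>
      (y % 2 = 0 ∧ (ca (y / 2) < cb (y / 2) ∨ ∃ q : ℕ × ℕ,
        (q.2 ≤ 2 ^ q.1 ∧ Some' E cf (WW cf th (cn (y / 2)) q.1 q.2)) ∧
        ca (y / 2) * 2 ^ q.1 < q.2 * (cc (y / 2) + 1) + cb (y / 2) * 2 ^ q.1)) ∨
      (y % 2 = 1 ∧ (cb (y / 2) + cc (y / 2) + 1 < ca (y / 2) ∨ ∃ q : ℕ × ℕ,
        (q.2 ≤ 2 ^ q.1 ∧ Some' E cf (UU cf th (cn (y / 2)) q.1 q.2)) ∧
        q.2 * (cc (y / 2) + 1) + cb (y / 2) * 2 ^ q.1 < ca (y / 2) * 2 ^ q.1)) := by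
    refine EIn.or (EIn.and (EIn.of_re (RE.eq (by fun_prop) (by fun_prop))) (EIn.or
      (EIn.of_re (RE.lt (by fun_prop) (by fun_prop))) ?_))
      (EIn.and (EIn.of_re (RE.eq (by fun_prop) (by fun_prop))) (EIn.or
      (EIn.of_re (RE.lt (by fun_prop) (by fun_prop))) ?_))
    · refine EIn.ex (S := fun (y : ℕ) (q : ℕ × ℕ) =>
        (q.2 ≤ 2 ^ q.1 ∧ Some' E cf (WW cf th (cn (y / 2)) q.1 q.2)) ∧
        ca (y / 2) * 2 ^ q.1 < q.2 * (cc (y / 2) + 1) + cb (y / 2) * 2 ^ q.1) ?_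
      refine EIn.and ?_ (EIn.of_re (RE.lt (by fun_prop) (by fun_prop)))
      exact hW.comp (f := fun x : ℕ × (ℕ × ℕ) => (cn (x.1 / 2), x.2)) (by fun_prop)
    · refine EIn.ex (S := fun (y : ℕ) (q : ℕ × ℕ) =>
        (q.2 ≤ 2 ^ q.1 ∧ Some' E cf (UU cf th (cn (y / 2)) q.1 q.2)) ∧
        q.2 * (cc (y / 2) + 1) + cb (y / 2) * 2 ^ q.1 < ca (y / 2) * 2 ^ q.1) ?_
      refine EIn.and ?_ (EIn.of_re (RE.lt (by fun_prop) (by fun_prop)))
      exact hU.comp (f := fun x : ℕ × (ℕ × ℕ) => (cn (x.1 / 2), x.2)) (by fun_prop)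
  refine h1.of_eq fun y => ?_
  rcases Nat.even_or_odd' y with ⟨w, rfl | rfl⟩
  · have e1 : 2 * w % 2 = 0 := by omega
    have e2 : 2 * w / 2 = w := by omega
    rw [e2, e1, even_iff, pos_hh_iff, lt_xv_iff, frac_neg_iff]
    simp only [frac_lt_iff, Prod.exists, true_and, zero_ne_one, false_and, or_false, and_assoc]
  · have e1 : (2 * w + 1) % 2 = 1 := by omega
    have e2 : (2 * w + 1) / 2 = w := by omega
    rw [e2, e1, odd_iff, neg_hh_iff, h.xv_lt_iff, one_lt_frac_iff]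
    simp only [lt_frac_iff, Prod.exists, true_and, one_ne_zero, false_and, false_or, and_assoc]

theorem Core.ein_ns (h : Core E cf th) : EIn (NS (xv E cf th)) fun n : ℕ => n ∈ E := by
  have h1 : EIn (NS (xv E cf th)) fun n : ℕ => ∃ κ : ℕ, κ.unpair.1 = n ∧
      2 * Nat.pair κ (Nat.pair (Nat.pair 1 0) 0) + 1 ∈ NS (xv E cf th) := by
    refine EIn.ex (S := fun (n κ : ℕ) => κ.unpair.1 = n ∧
      2 * Nat.pair κ (Nat.pair (Nat.pair 1 0) 0) + 1 ∈ NS (xv E cf th)) ?_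
    exact EIn.and (EIn.of_re (RE.eq (by fun_prop) (by fun_prop))) (EIn.mem (by fun_prop))
  refine h1.of_eq fun n => ?_
  have h2 : ∀ κ, 2 * Nat.pair κ (Nat.pair (Nat.pair 1 0) 0) + 1 ∈ NS (xv E cf th) ↔
      xv E cf th κ < 1 := by
    intro κ
    rw [odd_mem]
    norm_num
  constructor
  · rintro ⟨κ, rfl, hκ⟩
    exact h.xv_lt_one_imp ((h2 κ).1 hκ)
  · intro hn
    obtain ⟨κ, hκ, hx⟩ := h.exists_xv_lt_one hn
    exact ⟨κ, hκ, (h2 κ).2 hx⟩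

/-- a core set is graph-cototal -/
theorem Core.graph (h : Core E cf th) (hc : CD cf th) : ∃ f : ℕ → ℕ, ∃ N : Set ℕ,
    EIn N (fun n : ℕ => n ∈ E) ∧ EIn E (fun n : ℕ => n ∈ N) ∧
    EIn {k : ℕ | f (Nat.unpair k).1 ≠ (Nat.unpair k).2} (fun y : ℕ => y ∈ N) ∧
      EIn N (fun k : ℕ => k ∈ {k : ℕ | f (Nat.unpair k).1 ≠ (Nat.unpair k).2}) := by
  obtain ⟨f, h1, h2⟩ := main (x := xv E cf th) (fun n => ⟨xv_nonneg, xv_le_one⟩)
  exact ⟨f, NS (xv E cf th), h.ein_ns, h.ns_ein hc, h1, h2⟩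

end Q206.ATot
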