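import Pool.Agent.Q206.ATot.Force
import Pool.Agent.Q206.ATot.Cont

/-!
# Almost total degrees are graph-cototal
-/

namespace Q206.ATot

open Encodable Pool.Agent.Helper446 Pool.Agent.Helper446.RE Pool.Agent.Helper446.CB
  Pool.Agent.H288R3.CGC

/-- decoding of triples -/
def dc (x : ℕ) : List ℕ × (ℕ × ℕ) := Denumerable.ofNat (List ℕ × (ℕ × ℕ)) x

/-- coding of triples -/
def en (p : List ℕ × (ℕ × ℕ)) : ℕ := encode p

theorem dc_en (p : List ℕ × (ℕ × ℕ)) : dc (en p) = p := Denumerable.ofNat_encode p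

theorem cdc : Computable dc := Computable.ofNat _

theorem cen : Computable en := Computable.encode

/-- prefixes -/
def pf (σ τ : List ℕ) : Bool := decide (τ.take σ.length = σ)

theorem pf_iff {σ τ : List ℕ} : pf σ τ = true ↔ σ <+: τ := by
  unfold pf
  rw [decide_eq_true_eq, List.prefix_iff_eq_take]
  exact eq_comm

theorem cpf {α : Type} [Primcodable α] {f g : α → List ℕ} (hf : Computable f)
    (hg : Computable g) : Computable fun a => pf (f a) (g a) := by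
  unfold pf
  have h1 : Computable fun a => (g a).take (f a).length :=
    Primrec.list_take.to_comp.comp (by fun_prop) hg
  exact cdecide (cp_eq h1 hf)

/-- the conflict relation -/
def cf (x y : ℕ) : Bool :=
  (pf (dc x).1 (dc y).1 || pf (dc y).1 (dc x).1) && (decide ((dc x).2.1 = (dc y).2.1) &&
    (decide ((dc x).2.2 = 0) && !(decide ((dc y).2.2 = 0))))

theorem cf_iff {x y : ℕ} : cf x y = true ↔
    ((dc x).1 <+: (dc y).1 ∨ (dc y).1 <+: (dc x).1) ∧ (dc x).2.1 = (dc y).2.1 ∧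
      (dc x).2.2 = 0 ∧ (dc y).2.2 ≠ 0 := by
  unfold cf
  simp only [Bool.and_eq_true, Bool.or_eq_true, pf_iff, decide_eq_true_eq, Bool.not_eq_true',
    decide_eq_false_iff_not, ne_eq]

theorem ccf : Computable fun p : ℕ × ℕ => cf p.1 p.2 := by
  unfold cf
  have h1 : Computable fun p : ℕ × ℕ => dc p.1 := cdc.comp (by fun_prop)
  have h2 : Computable fun p : ℕ × ℕ => dc p.2 := cdc.comp (by fun_prop)
  exact cand (cor (cpf (cfst h1) (cfst h2)) (cpf (cfst h2) (cfst h1)))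
    (cand (cdeq (cfst (csnd h1)) (cfst (csnd h2)))
      (cand (cdeq (csnd (csnd h1)) (by fun_prop)) (cnot (cdeq (csnd (csnd h2)) (by fun_prop)))))

variable {A : Set ℕ} {R1 R0 Rψ : ℕ × List ℕ → Prop} {σ : List ℕ}

/-- the set of facts forced -/
def EE (A : Set ℕ) (R1 R0 : ℕ × List ℕ → Prop) (σ : List ℕ) : Set ℕ :=
  {x | σ <+: (dc x).1 ∧ (((dc x).2.2 = 0 ∧ (dc x).2.1 ∈ OA R0 A (dc x).1) ∨
    ((dc x).2.2 ≠ 0 ∧ (dc x).2.1 ∈ OA R1 A (dc x).1))}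

/-- what a set of facts says about a condition -/
def QT (Q : Set ℕ) (σ τ : List ℕ) : Set ℕ :=
  {n | ∃ x ∈ Q, σ <+: (dc x).1 ∧ (dc x).1 <+: τ ∧ (dc x).2.1 = n ∧ (dc x).2.2 ≠ 0}

theorem mem_EE_one {τ : List ℕ} {n : ℕ} (hτ : σ <+: τ) (hn : n ∈ OA R1 A τ) :
    en (τ, (n, 1)) ∈ EE A R1 R0 σ := by
  show σ <+: (dc (en (τ, (n, 1)))).1 ∧ _
  rw [dc_en]
  exact ⟨hτ, Or.inr ⟨by norm_num, hn⟩⟩

theorem mem_EE_zero {τ : List ℕ} {n : ℕ} (hτ : σ <+: τ) (hn : n ∈ OA R0 A τ) :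
    en (τ, (n, 0)) ∈ EE A R1 R0 σ := by
  show σ <+: (dc (en (τ, (n, 0)))).1 ∧ _
  rw [dc_en]
  exact ⟨hτ, Or.inl ⟨rfl, hn⟩⟩

/-- independence -/
theorem Forced.indep (h : Forced A R1 R0 Rψ σ) :
    ∀ x ∈ EE A R1 R0 σ, ∀ y ∈ EE A R1 R0 σ, cf x y = false := by
  intro x hx y hy
  by_contra hcon
  simp only [Bool.not_eq_false] at hcon
  rw [cf_iff] at hcon
  obtain ⟨h1, h2, h3, h4⟩ := hcon
  obtain ⟨hx1, hx2 | hx2⟩ := hx
  · obtain ⟨hy1, hy2 | hy2⟩ := hy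
    · exact h4 hy2.1
    · rcases h1 with h1 | h1
      · exact h.c1 _ hy1 (dc y).2.1 ⟨hy2.2, h2 ▸ OA_mono h1 hx2.2⟩
      · exact h.c1 _ hx1 (dc x).2.1 ⟨h2 ▸ OA_mono h1 hy2.2, hx2.2⟩
  · exact hx2.1 h3

/-- the extension deciding finitely many questions -/
theorem Forced.exists_decide (h : Forced A R1 R0 Rψ σ) (b : List ℕ) : ∀ τ, σ <+: τ →
    ∃ τ', τ <+: τ' ∧ ∀ n ∈ b, n ∈ OA R1 A τ' ∨ n ∈ OA R0 A τ' := by
  induction b with
  | nil => exact fun τ _ => ⟨τ, List.prefix_rfl, by simp⟩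
  | cons a b ih =>
    intro τ hτ
    obtain ⟨τ1, h1, h2⟩ := h.c2 τ hτ a
    obtain ⟨τ2, h3, h4⟩ := ih τ1 (hτ.trans h1)
    refine ⟨τ2, h1.trans h3, fun n hn => ?_⟩
    rcases List.mem_cons.1 hn with rfl | hn
    · rcases h2 with h2 | h2
      · exact Or.inl (OA_mono h3 h2)
      · exact Or.inr (OA_mono h3 h2)
    · exact h4 n hn

/-- every independent set of facts including the true ones gives `A` -/
theorem Forced.decode (h : Forced A R1 R0 Rψ σ) {Q : Set ℕ} (hQ : EE A R1 R0 σ ⊆ Q)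
    (hI : ∀ x ∈ Q, ∀ y ∈ Q, cf x y = false) (k : ℕ) :
    k ∈ A ↔ ∃ τ, σ <+: τ ∧ k ∈ Op Rψ (QT Q σ τ) := by
  constructor
  · intro hk
    obtain ⟨τ, h1, h2⟩ := h.c4 k hk σ List.prefix_rfl
    refine ⟨τ, h1, Op_mono (fun n hn => ?_) h2⟩
    refine ⟨_, hQ (mem_EE_one h1 hn), ?_⟩
    rw [dc_en]
    exact ⟨h1, List.prefix_rfl, rfl, by norm_num⟩
  · rintro ⟨τ, h1, b, hb, hbQ⟩
    obtain ⟨τ', h2, h3⟩ := h.exists_decide b τ h1
    refine h.c3 τ' (h1.trans h2) k ⟨b, hb, fun n hn => ?_⟩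
    rcases h3 n hn with h4 | h4
    · exact h4
    · exfalso
      obtain ⟨x, hx, h5, h6, h7, h8⟩ := hbQ n hn
      have h9 := hI _ (hQ (mem_EE_zero (h1.trans h2) h4)) x hx
      have h10 : cf (en (τ', (n, 0))) x = true := by
        rw [cf_iff, dc_en]
        exact ⟨Or.inr (h6.trans h2), h7.symm, rfl, h8⟩
      rw [h10] at h9
      simp at h9

/-- the operator giving `A` -/
def RA (Rψ : ℕ × List ℕ → Prop) (σ : List ℕ) (p : ℕ × List ℕ) : Prop :=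
  ∃ q : List ℕ × List ℕ, pf σ q.1 = true ∧ Rψ (p.1, q.2) ∧ ∀ n ∈ q.2, ∃ x ∈ p.2,
    pf σ (dc x).1 = true ∧ pf (dc x).1 q.1 = true ∧ (dc x).2.1 = n ∧ (dc x).2.2 ≠ 0

theorem RA_re (hR : REPred Rψ) (σ : List ℕ) : REPred (RA Rψ σ) := by
  unfold RA
  refine RE.ex (p := fun (p : ℕ × List ℕ) (q : List ℕ × List ℕ) => pf σ q.1 = true ∧
    Rψ (p.1, q.2) ∧ ∀ n ∈ q.2, ∃ x ∈ p.2,
    pf σ (dc x).1 = true ∧ pf (dc x).1 q.1 = true ∧ (dc x).2.1 = n ∧ (dc x).2.2 ≠ 0) ?_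
  refine RE.and (RE.eq (cpf (by fun_prop) (by fun_prop)) (by fun_prop)) (RE.and ?_ ?_)
  · exact RE.comp hR (f := fun x : (ℕ × List ℕ) × (List ℕ × List ℕ) => (x.1.1, x.2.2))
      (by fun_prop)
  · refine RE.all_mem (p := fun (y : (ℕ × List ℕ) × (List ℕ × List ℕ)) (n : ℕ) => ∃ x ∈ y.1.2,
      pf σ (dc x).1 = true ∧ pf (dc x).1 y.2.1 = true ∧ (dc x).2.1 = n ∧ (dc x).2.2 ≠ 0) ?_
      (l := fun y => y.2.2) (by fun_prop)
    refine RE.ex_mem (p := fun (y : ((ℕ × List ℕ) × (List ℕ × List ℕ)) × ℕ) (x : ℕ) =>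
      pf σ (dc x).1 = true ∧ pf (dc x).1 y.1.2.1 = true ∧ (dc x).2.1 = y.2 ∧ (dc x).2.2 ≠ 0) ?_
      (l := fun y => y.1.1.2) (by fun_prop)
    have h1 : Computable fun z : (((ℕ × List ℕ) × (List ℕ × List ℕ)) × ℕ) × ℕ => dc z.2 :=
      cdc.comp (by fun_prop)
    exact RE.and (RE.eq (cpf (by fun_prop) (cfst h1)) (by fun_prop))
      (RE.and (RE.eq (cpf (cfst h1) (by fun_prop)) (by fun_prop))
      (RE.and (RE.eq (cfst (csnd h1)) (by fun_prop)) (RE.ne (csnd (csnd h1)) (by fun_prop))))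

theorem mem_Op_RA {Q : Set ℕ} {k : ℕ} : k ∈ Op (RA Rψ σ) Q ↔
    ∃ τ, σ <+: τ ∧ k ∈ Op Rψ (QT Q σ τ) := by
  constructor
  · rintro ⟨c, ⟨⟨τ, b⟩, h1, h2, h3⟩, h4⟩
    refine ⟨τ, pf_iff.1 h1, b, h2, fun n hn => ?_⟩
    obtain ⟨x, hx, h5, h6, h7, h8⟩ := h3 n hn
    exact ⟨x, h4 x hx, pf_iff.1 h5, pf_iff.1 h6, h7, h8⟩
  · rintro ⟨τ, h1, b, h2, h3⟩
    have h4 : ∀ n, ∃ x, n ∈ b → (x ∈ Q ∧ σ <+: (dc x).1 ∧ (dc x).1 <+: τ ∧ (dc x).2.1 = n ∧
        (dc x).2.2 ≠ 0) := by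
      intro n
      by_cases hn : n ∈ b
      · obtain ⟨x, hx⟩ := h3 n hn
        exact ⟨x, fun _ => hx⟩
      · exact ⟨0, fun h => absurd h hn⟩
    choose f hf using h4
    refine ⟨b.map f, ⟨(τ, b), pf_iff.2 h1, h2, fun n hn => ?_⟩, ?_⟩
    · obtain ⟨h5, h6, h7, h8, h9⟩ := hf n hn
      exact ⟨f n, List.mem_map.2 ⟨n, hn, rfl⟩, pf_iff.2 h6, pf_iff.2 h7, h8, h9⟩
    · intro i hi
      obtain ⟨n, hn, rfl⟩ := List.mem_map.1 hi
      exact (hf n hn).1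

theorem OA_ein {R : ℕ × List ℕ → Prop} (hR : REPred R) (A : Set ℕ) :
    EIn A fun p : ℕ × List ℕ => p.1 ∈ OA R A p.2 := by
  have h1 : EIn A fun p : ℕ × List ℕ => ∃ l : List ℕ, R (p.1, l) ∧ ∀ j < l.length,
      (∃ i : ℕ, l[j]? = some i ∧ ((i % 2 = 0 ∧ i / 2 ∈ A) ∨
        (i % 2 = 1 ∧ (p.2)[(i / 2).unpair.1]? = some (i / 2).unpair.2))) := by
    refine EIn.ex (S := fun (p : ℕ × List ℕ) (l : List ℕ) => R (p.1, l) ∧ ∀ j < l.length,
      (∃ i : ℕ, l[j]? = some i ∧ ((i % 2 = 0 ∧ i / 2 ∈ A) ∨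
        (i % 2 = 1 ∧ (p.2)[(i / 2).unpair.1]? = some (i / 2).unpair.2)))) ?_
    refine EIn.and (EIn.of_re (RE.comp hR
      (f := fun x : (ℕ × List ℕ) × List ℕ => (x.1.1, x.2)) (by fun_prop))) ?_
    refine EIn.all_lt (S := fun (x : (ℕ × List ℕ) × List ℕ) (j : ℕ) =>
      (∃ i : ℕ, x.2[j]? = some i ∧ ((i % 2 = 0 ∧ i / 2 ∈ A) ∨
        (i % 2 = 1 ∧ (x.1.2)[(i / 2).unpair.1]? = some (i / 2).unpair.2)))) ?_ (by fun_prop)
    refine EIn.ex (S := fun (y : ((ℕ × List ℕ) × List ℕ) × ℕ) (i : ℕ) =>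
      y.1.2[y.2]? = some i ∧ ((i % 2 = 0 ∧ i / 2 ∈ A) ∨
        (i % 2 = 1 ∧ (y.1.1.2)[(i / 2).unpair.1]? = some (i / 2).unpair.2))) ?_
    refine EIn.and (EIn.of_re (RE.eq (by fun_prop) (by fun_prop))) (EIn.or
      (EIn.and (EIn.of_re (RE.eq (by fun_prop) (by fun_prop))) (EIn.mem (by fun_prop)))
      (EIn.of_re (RE.and (RE.eq (by fun_prop) (by fun_prop))
        (RE.eq (by fun_prop) (by fun_prop)))))
  refine h1.of_eq fun p => ?_
  constructor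
  · rintro ⟨l, h2, h3⟩
    refine ⟨l, h2, fun i hi => ?_⟩
    obtain ⟨j, hj, rfl⟩ := List.getElem_of_mem hi
    obtain ⟨i', h4, h5⟩ := h3 j hj
    rw [List.getElem?_eq_getElem hj] at h4
    have h6 := Option.some.inj h4
    rw [h6]
    exact h5
  · rintro ⟨l, h2, h3⟩
    refine ⟨l, h2, fun j hj => ⟨l[j], List.getElem?_eq_getElem hj, ?_⟩⟩
    exact h3 _ (List.getElem_mem hj)

theorem EE_ein (hR1 : REPred R1) (hR0 : REPred R0) (A : Set ℕ) (σ : List ℕ) :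
    EIn A fun x : ℕ => x ∈ EE A R1 R0 σ := by
  have hdc : Computable fun x : ℕ => dc x := cdc
  have h1 : EIn A fun x : ℕ => pf σ (dc x).1 = true ∧ (((dc x).2.2 = 0 ∧
      (dc x).2.1 ∈ OA R0 A (dc x).1) ∨ ((dc x).2.2 ≠ 0 ∧ (dc x).2.1 ∈ OA R1 A (dc x).1)) := by
    refine EIn.and (EIn.of_re (RE.eq (cpf (by fun_prop) (cfst hdc)) (by fun_prop))) (EIn.or ?_ ?_)
    · exact EIn.and (EIn.of_re (RE.eq (csnd (csnd hdc)) (by fun_prop)))
        ((OA_ein hR0 A).comp (f := fun x : ℕ => ((dc x).2.1, (dc x).1))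
          (cpair (cfst (csnd hdc)) (cfst hdc)))
    · exact EIn.and (EIn.of_re (RE.ne (csnd (csnd hdc)) (by fun_prop)))
        ((OA_ein hR1 A).comp (f := fun x : ℕ => ((dc x).2.1, (dc x).1))
          (cpair (cfst (csnd hdc)) (cfst hdc)))
  refine h1.of_eq fun x => ?_
  rw [pf_iff]
  rfl

/-- the core structure -/
theorem Forced.exists_core (h : Forced A R1 R0 Rψ σ) (hR1 : REPred R1) (hR0 : REPred R0)
    (hRψ : REPred Rψ) : ∃ th : ℕ → ℕ → ℕ → Bool, Core (EE A R1 R0 σ) cf th ∧ CD cf th := by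
  obtain ⟨RE', hRE', h1⟩ := ein_iff.1 (EE_ein hR1 hR0 A σ)
  obtain ⟨R, hR, h2⟩ := exists_comp hRE' (RA_re hRψ σ)
  have h3 : ∀ Q : Set ℕ, EE A R1 R0 σ ⊆ Q → (∀ x ∈ Q, ∀ y ∈ Q, cf x y = false) →
      ∀ e, e ∈ EE A R1 R0 σ ↔ e ∈ Op R Q := by
    intro Q hQ hI e
    rw [h1, h2]
    have : Op (RA Rψ σ) Q = A := by
      ext k
      rw [mem_Op_RA, h.decode hQ hI]
    rw [this]
  obtain ⟨q, hq, h4⟩ := re_iff.1 hR
  have hq' : Computable fun p : (ℕ × List ℕ) × ℕ => q p.1 p.2 := hq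
  let cc' : ℕ → List ℕ := fun p => Denumerable.ofNat (List ℕ) p.unpair.1
  have hcc : Computable cc' := (Computable.ofNat (List ℕ)).comp (by fun_prop)
  let th : ℕ → ℕ → ℕ → Bool := fun s z e => exB (fun p => q (e, cc' p) p.unpair.2 &&
    decide (∀ i ∈ cc' p, z.testBit i = true)) s
  have hth : ∀ s z e, th s z e = true ↔ ∃ p < s, q (e, cc' p) p.unpair.2 = true ∧
      ∀ i ∈ cc' p, z.testBit i = true := by
    intro s z e
    simp only [th, exB_iff, Bool.and_eq_true, decide_eq_true_eq]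
  refine ⟨th, ⟨h.indep, ?_, ?_, ?_⟩, ⟨ccf, ?_⟩⟩
  · intro Q hQ hI s e hs
    rw [hth] at hs
    obtain ⟨p, hp, h5, h6⟩ := hs
    rw [h3 {n | Q n = true} hQ (fun x hx y hy => hI x y hx hy)]
    refine ⟨cc' p, (h4 _).2 ⟨_, h5⟩, fun i hi => ?_⟩
    have := h6 i hi
    rw [testBit_pre] at this
    simp only [Bool.and_eq_true] at this
    exact this.2
  · intro Q hQ hI e he
    rw [h3 {n | Q n = true} hQ (fun x hx y hy => hI x y hx hy)] at he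
    obtain ⟨c, h5, h6⟩ := he
    obtain ⟨t, ht⟩ := (h4 _).1 h5
    refine ⟨Nat.pair (encode c) t + c.sum + 1, (hth _ _ _).2 ⟨Nat.pair (encode c) t, by omega,
      ?_, ?_⟩⟩
    · simp only [cc', Nat.unpair_pair, Denumerable.ofNat_encode]
      exact ht
    · intro i hi
      simp only [cc', Nat.unpair_pair, Denumerable.ofNat_encode] at hi
      rw [testBit_pre]
      have h7 : i ≤ c.sum := List.single_le_sum (by simp) _ hi
      have h8 : Q i = true := h6 i hi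
      simp only [h8, Bool.and_true, decide_eq_true_eq]
      omega
  · intro s s' z e hss hs
    rw [hth] at hs ⊢
    obtain ⟨p, hp, h5, h6⟩ := hs
    refine ⟨p, by omega, h5, fun i hi => ?_⟩
    have := h6 i hi
    rw [Nat.testBit_mod_two_pow] at this
    simp only [Bool.and_eq_true] at this
    exact this.2
  · refine cex (q := fun (x : (ℕ × ℕ) × ℕ) (p : ℕ) => q (x.2, cc' p) p.unpair.2 &&
      decide (∀ i ∈ cc' p, x.1.2.testBit i = true)) ?_ (by fun_prop)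
    have h5 : Computable fun y : ((ℕ × ℕ) × ℕ) × ℕ => cc' y.2 := hcc.comp (by fun_prop)
    refine cand ?_ (cdecide ?_)
    · exact hq'.comp (f := fun p : (ℕ × List ℕ) × ℕ => q p.1 p.2)
        (g := fun y : ((ℕ × ℕ) × ℕ) × ℕ => ((y.1.2, cc' y.2), y.2.unpair.2))
        (cpair (cpair (by fun_prop) h5) (by fun_prop))
    · refine cp_ball (p := fun (y : ((ℕ × ℕ) × ℕ) × ℕ) (i : ℕ) => y.1.1.2.testBit i = true) ?_
        (l := fun y => cc' y.2) h5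
      exact cp_eq (by fun_prop) (by fun_prop)

/-- every almost total enumeration degree is graph-cototal -/
theorem graphCototal_of_almostTotal (hA : AlmostTotal A) : GraphCototal A := by
  obtain ⟨R1, R0, Rψ, σ, hR1, hR0, hRψ, h⟩ := exists_forced hA
  obtain ⟨th, hcore, hcd⟩ := h.exists_core hR1 hR0 hRψ
  obtain ⟨f, N, h1, h2, h3, h4⟩ := hcore.graph hcd
  have h5 : EIn (EE A R1 R0 σ) fun n : ℕ => n ∈ A := by
    refine ein_iff.2 ⟨RA Rψ σ, RA_re hRψ σ, fun k => ?_⟩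
    rw [mem_Op_RA, h.decode le_rfl h.indep]
  have h6 := EE_ein hR1 hR0 A σ
  refine ⟨f, ?_, ?_⟩
  · rw [ered_iff]
    exact EIn.trans' (EIn.trans' h3 h1) h5
  · rw [ered_iff]
    exact EIn.trans' (EIn.trans' h6 h2) h4

end Q206.ATot
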