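import Pool.Agent.H288R3.CGC.Final

/-!
# Enumeration degrees: definitions
-/

namespace Q206.ATot

open Encodable Pool.Agent.Helper446 Pool.Agent.Helper446.RE Pool.Agent.Helper446.CB
  Pool.Agent.H288R3.CGC

/-- `A ≤ₑ B`: there is a c.e. set `Ψ` of pairs `(n, u)`, where `u` is the canonical index of the
finite set `{i : the i-th binary digit of u is 1}`, such that `n ∈ A` iff `(n, u) ∈ Ψ` for some `u`
whose finite set is included in `B`. -/
def ERed (A B : Set ℕ) : Prop :=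
  ∃ Ψ : Set (ℕ × ℕ), REPred (fun p : ℕ × ℕ => p ∈ Ψ) ∧
    ∀ n, n ∈ A ↔ ∃ u, (n, u) ∈ Ψ ∧ ∀ i, u.testBit i = true → i ∈ B

/-- `A ≡ₑ B` -/
def EEquiv (A B : Set ℕ) : Prop := ERed A B ∧ ERed B A

/-- `A ⊕ B` -/
def join (A B : Set ℕ) : Set ℕ := {k | (k % 2 = 0 ∧ k / 2 ∈ A) ∨ (k % 2 = 1 ∧ k / 2 ∈ B)}

/-- the enumeration degree of `A` contains a total set -/
def TotalDeg (A : Set ℕ) : Prop := ∃ C : Set ℕ, EEquiv A C ∧ ERed Cᶜ C

/-- the enumeration degree of `A` is almost total -/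
def AlmostTotal (A : Set ℕ) : Prop := ∀ B : Set ℕ, ERed B A ∨ TotalDeg (join A B)

/-- the complement of the graph of `f` -/
def coGraph (f : ℕ → ℕ) : Set ℕ := {k | f k.unpair.1 ≠ k.unpair.2}

/-- the enumeration degree of `A` is graph-cototal -/
def GraphCototal (A : Set ℕ) : Prop := ∃ f : ℕ → ℕ, EEquiv A (coGraph f)

/-! ### Basic facts -/

/-- application of a set of axioms -/
def Op {α : Type} (R : α × List ℕ → Prop) (B : Set ℕ) : Set α :=
  {a | ∃ c, R (a, c) ∧ ∀ i ∈ c, i ∈ B}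

theorem Op_mono {α : Type} {R : α × List ℕ → Prop} {B B' : Set ℕ} (h : B ⊆ B') :
    Op R B ⊆ Op R B' := by
  rintro a ⟨c, h1, h2⟩
  exact ⟨c, h1, fun i hi => h (h2 i hi)⟩

/-- composition of operators -/
theorem exists_comp {α : Type} [Primcodable α] {R : α × List ℕ → Prop} (hR : REPred R)
    {R' : ℕ × List ℕ → Prop} (hR' : REPred R') :
    ∃ R'' : α × List ℕ → Prop, REPred R'' ∧ ∀ B, Op R'' B = Op R (Op R' B) := by
  refine ⟨fun x => ∃ b : List ℕ, R (x.1, b) ∧ ∀ i ∈ b, ∃ d : List ℕ, R' (i, d) ∧ ∀ y ∈ d, y ∈ x.2,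
    ?_, fun B => ?_⟩
  · refine RE.ex (p := fun (x : α × List ℕ) (b : List ℕ) => R (x.1, b) ∧
      ∀ i ∈ b, ∃ d : List ℕ, R' (i, d) ∧ ∀ y ∈ d, y ∈ x.2) ?_
    refine RE.and ?_ ?_
    · exact RE.comp hR (f := fun x : (α × List ℕ) × List ℕ => (x.1.1, x.2)) (by fun_prop)
    · refine RE.all_mem (p := fun (x : (α × List ℕ) × List ℕ) (i : ℕ) =>
        ∃ d : List ℕ, R' (i, d) ∧ ∀ y ∈ d, y ∈ x.1.2) ?_ (l := fun x => x.2) (by fun_prop)
      refine RE.ex (p := fun (x : ((α × List ℕ) × List ℕ) × ℕ) (d : List ℕ) =>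
        R' (x.2, d) ∧ ∀ y ∈ d, y ∈ x.1.1.2) ?_
      refine RE.and ?_ ?_
      · exact RE.comp hR' (f := fun x : (((α × List ℕ) × List ℕ) × ℕ) × List ℕ => (x.1.2, x.2))
          (by fun_prop)
      · refine RE.all_mem (p := fun (x : (((α × List ℕ) × List ℕ) × ℕ) × List ℕ) (y : ℕ) =>
          y ∈ x.1.1.1.2) ?_ (l := fun x => x.2) (by fun_prop)
        exact RE.mem_list (by fun_prop) (by fun_prop)
  · ext a
    constructor
    · rintro ⟨c, ⟨b, h1, h2⟩, h3⟩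
      refine ⟨b, h1, fun i hi => ?_⟩
      obtain ⟨d, h4, h5⟩ := h2 i hi
      exact ⟨d, h4, fun y hy => h3 y (h5 y hy)⟩
    · rintro ⟨b, h1, h2⟩
      have h3 : ∀ i, ∃ d : List ℕ, i ∈ b → R' (i, d) ∧ ∀ y ∈ d, y ∈ B := by
        intro i
        by_cases hi : i ∈ b
        · obtain ⟨d, hd⟩ := h2 i hi
          exact ⟨d, fun _ => hd⟩
        · exact ⟨[], fun h => absurd h hi⟩
      choose d hd using h3
      refine ⟨b.flatMap d, ⟨b, h1, fun i hi => ⟨d i, (hd i hi).1, fun y hy => ?_⟩⟩, ?_⟩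
      · exact List.mem_flatMap.2 ⟨i, hi, hy⟩
      · intro y hy
        obtain ⟨i, hi, hy⟩ := List.mem_flatMap.1 hy
        exact (hd i hi).2 y hy

theorem ein_iff {α : Type} [Primcodable α] {B : Set ℕ} {S : α → Prop} :
    EIn B S ↔ ∃ R : α × List ℕ → Prop, REPred R ∧ ∀ a, S a ↔ a ∈ Op R B := by
  constructor
  · rintro ⟨R, hR, h⟩
    exact ⟨fun x => R x.1 x.2, hR, h⟩
  · rintro ⟨R, hR, h⟩
    exact ⟨fun a c => R (a, c), hR, h⟩

theorem EIn.trans' {α : Type} [Primcodable α] {B C : Set ℕ} {S : α → Prop}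
    (h1 : EIn C fun i : ℕ => i ∈ B) (h2 : EIn B S) : EIn C S := by
  obtain ⟨R, hR, h⟩ := ein_iff.1 h2
  obtain ⟨R', hR', h'⟩ := ein_iff.1 h1
  obtain ⟨R'', hR'', h''⟩ := exists_comp hR hR'
  refine ein_iff.2 ⟨R'', hR'', fun a => ?_⟩
  rw [h, h'']
  have : B = Op R' C := by ext i; exact h' i
  rw [← this]

theorem ered_iff {A B : Set ℕ} : ERed A B ↔ EIn B fun n : ℕ => n ∈ A := by
  constructor
  · rintro ⟨Ψ, hΨ, h⟩
    refine ein_iff.2 ⟨fun x => ∃ u : ℕ, (x.1, u) ∈ Ψ ∧ ∀ i < u, u.testBit i = false ∨ i ∈ x.2,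
      ?_, fun a => ?_⟩
    · refine RE.exN (p := fun (x : ℕ × List ℕ) (u : ℕ) => (x.1, u) ∈ Ψ ∧
        ∀ i < u, u.testBit i = false ∨ i ∈ x.2) ?_
      refine RE.and ?_ ?_
      · exact RE.comp hΨ (f := fun x : (ℕ × List ℕ) × ℕ => (x.1.1, x.2)) (by fun_prop)
      · refine RE.all_lt (p := fun (x : (ℕ × List ℕ) × ℕ) (i : ℕ) =>
          x.2.testBit i = false ∨ i ∈ x.1.2) ?_ (by fun_prop)
        refine RE.or (RE.eq (testBit_comp.comp
          (g := fun z : ((ℕ × List ℕ) × ℕ) × ℕ => (z.1.2, z.2)) (by fun_prop)) (by fun_prop)) ?_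
        exact RE.mem_list (by fun_prop) (by fun_prop)
    · rw [h]
      constructor
      · rintro ⟨u, h1, h2⟩
        refine ⟨(List.range u).filter (fun i => u.testBit i), ⟨u, h1, fun i hi => ?_⟩, ?_⟩
        · dsimp only
          by_cases h3 : u.testBit i = true
          · right
            rw [List.mem_filter, List.mem_range]
            exact ⟨hi, h3⟩
          · left; simpa using h3
        · intro i hi
          rw [List.mem_filter] at hi
          exact h2 i hi.2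
      · rintro ⟨c, ⟨u, h1, h2⟩, h3⟩
        refine ⟨u, h1, fun i hi => ?_⟩
        have hiu : i < u := by
          have h4 : 2 ^ i ≤ u := Nat.ge_two_pow_of_testBit hi
          have h5 : i < 2 ^ i := Nat.lt_two_pow_self
          omega
        rcases h2 i hiu with h4 | h4
        · rw [hi] at h4; simp at h4
        · exact h3 i h4
  · intro h
    obtain ⟨W, hW, h1⟩ := h.bits
    exact ⟨{p | W p}, hW, h1⟩

end Q206.ATot
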