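import Pool.Agent.Q206.ATot.Defs

/-!
# Cohen forcing over an almost total degree
-/

namespace Q206.ATot

open Encodable Pool.Agent.Helper446 Pool.Agent.Helper446.RE Pool.Agent.Helper446.CB
  Pool.Agent.H288R3.CGC

/-- initial segment -/
def preL (X : ℕ → ℕ) (m : ℕ) : List ℕ := (List.range m).map X

theorem preL_get {X : ℕ → ℕ} {m j : ℕ} (h : j < m) : (preL X m)[j]? = some (X j) := by
  unfold preL
  rw [List.getElem?_map, List.getElem?_range h]
  rfl

theorem preL_length (X : ℕ → ℕ) (m : ℕ) : (preL X m).length = m := by simp [preL]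

theorem preL_prefix (X : ℕ → ℕ) {m m' : ℕ} (h : m ≤ m') : preL X m <+: preL X m' := by
  unfold preL
  exact List.IsPrefix.map _ (by
    rw [List.prefix_iff_eq_take, List.length_range, List.take_range, min_eq_left h])

/-- sufficiently generic sequences -/
theorem exists_generic (S : ℕ → List ℕ → Prop) : ∃ X : ℕ → ℕ, ∀ i, ∃ m, S i (preL X m) ∨
    ∀ τ, preL X m <+: τ → ¬ S i τ := by
  classical
  let ext : ℕ → List ℕ → List ℕ := fun n σ =>
    if h : ∃ τ, σ <+: τ ∧ S n τ then h.choose else σ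
  have hext1 : ∀ n σ, σ <+: ext n σ := by
    intro n σ
    by_cases h : ∃ τ, σ <+: τ ∧ S n τ
    · simp only [ext, dif_pos h]; exact h.choose_spec.1
    · simp only [ext, dif_neg h]; exact List.prefix_rfl
  have hext2 : ∀ n σ, (∃ τ, σ <+: τ ∧ S n τ) → S n (ext n σ) := by
    intro n σ h
    simp only [ext, dif_pos h]; exact h.choose_spec.2
  let s : ℕ → List ℕ := fun n => Nat.rec [] (fun n σ => ext n σ ++ [0]) n
  have hs : ∀ n, s (n + 1) = ext n (s n) ++ [0] := fun n => rfl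
  have hpre : ∀ n, s n <+: s (n + 1) := by
    intro n
    rw [hs]
    exact (hext1 n (s n)).trans (List.prefix_append _ _)
  have hmono : ∀ n k, n ≤ k → s n <+: s k := by
    intro n k h
    induction k, h using Nat.le_induction with
    | base => exact List.prefix_rfl
    | succ k _ ih => exact ih.trans (hpre k)
  have hlen : ∀ n, n ≤ (s n).length := by
    intro n
    induction n with
    | zero => exact Nat.zero_le _
    | succ n ih =>
      rw [hs, List.length_append, List.length_singleton]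
      have := (hext1 n (s n)).length_le
      omega
  let X : ℕ → ℕ := fun j => (s (j + 1)).getD j 0
  have hX : ∀ n, ∀ j < (s n).length, (s n)[j]? = some (X j) := by
    intro n j hj
    have h1 : j < (s (j + 1)).length := by have := hlen (j + 1); omega
    have h2 : (s (j + 1))[j]? = some (X j) := by
      rw [List.getElem?_eq_getElem h1]
      simp only [X]
      rw [List.getD_eq_getElem _ _ h1]
    rcases Nat.le_total n (j + 1) with h | h
    · have h3 := hmono _ _ h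
      rw [← h2]
      obtain ⟨t, ht⟩ := h3
      rw [← ht, List.getElem?_append_left hj]
    · obtain ⟨t, ht⟩ := hmono _ _ h
      rw [← ht, List.getElem?_append_left h1]
      exact h2
  have hXpre : ∀ n τ, τ <+: s n → preL X τ.length = τ := by
    intro n τ hτ
    apply List.ext_getElem?
    intro j
    by_cases hj : j < τ.length
    · rw [preL_get hj]
      obtain ⟨t, ht⟩ := hτ
      have h1 : j < (s n).length := by rw [← ht, List.length_append]; omega
      have h2 := hX n j h1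
      rw [← ht, List.getElem?_append_left hj] at h2
      exact h2.symm
    · rw [List.getElem?_eq_none (by rw [preL_length]; omega), List.getElem?_eq_none (by omega)]
  refine ⟨X, fun i => ?_⟩
  rcases Classical.em (∃ τ : List ℕ, s i <+: τ ∧ S i τ) with h | h
  · refine ⟨(ext i (s i)).length, Or.inl ?_⟩
    rw [hXpre (i + 1) _ (by rw [hs]; exact List.prefix_append _ _)]
    exact hext2 i (s i) h
  · refine ⟨(s i).length, Or.inr fun τ hτ hS => h ⟨τ, ?_, hS⟩⟩
    rw [hXpre i _ List.prefix_rfl] at hτ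
    exact hτ

/-- the part of the graph given by a finite sequence -/
def sgS (σ : List ℕ) : Set ℕ := {i | σ[i.unpair.1]? = some i.unpair.2}

/-- the graph -/
def grX (X : ℕ → ℕ) : Set ℕ := {i | X i.unpair.1 = i.unpair.2}

theorem sgS_mono {σ τ : List ℕ} (h : σ <+: τ) : sgS σ ⊆ sgS τ := by
  intro i hi
  obtain ⟨t, rfl⟩ := h
  have h1 : σ[i.unpair.1]? = some i.unpair.2 := hi
  have h2 : i.unpair.1 < σ.length := by
    by_contra hcon
    rw [List.getElem?_eq_none (by omega)] at h1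
    simp at h1
  show (σ ++ t)[i.unpair.1]? = some i.unpair.2
  rw [List.getElem?_append_left h2, h1]

theorem sgS_preL (X : ℕ → ℕ) (m : ℕ) : sgS (preL X m) ⊆ grX X := by
  intro i hi
  have h1 : (preL X m)[i.unpair.1]? = some i.unpair.2 := hi
  by_cases h2 : i.unpair.1 < m
  · rw [preL_get h2] at h1
    exact Option.some.inj h1
  · rw [List.getElem?_eq_none (by rw [preL_length]; omega)] at h1
    simp at h1

theorem mem_sgS_preL {X : ℕ → ℕ} {i m : ℕ} (hi : i ∈ grX X) (hm : i < m) : i ∈ sgS (preL X m) := by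
  have h1 : i.unpair.1 < m := lt_of_le_of_lt (Nat.unpair_left_le i) hm
  show (preL X m)[i.unpair.1]? = some i.unpair.2
  rw [preL_get h1]
  exact congrArg some hi

theorem join_mono {A B B' : Set ℕ} (h : B ⊆ B') : join A B ⊆ join A B' := by
  rintro k (hk | hk)
  · exact Or.inl hk
  · exact Or.inr ⟨hk.1, h hk.2⟩

/-- what the operator `R` gives from `A` and a finite sequence -/
def OA {α : Type} (R : α × List ℕ → Prop) (A : Set ℕ) (σ : List ℕ) : Set α :=
  Op R (join A (sgS σ))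

theorem OA_mono {α : Type} {R : α × List ℕ → Prop} {A : Set ℕ} {σ τ : List ℕ} (h : σ <+: τ) :
    OA R A σ ⊆ OA R A τ := Op_mono (join_mono (sgS_mono h))

theorem OA_sub {α : Type} {R : α × List ℕ → Prop} {A : Set ℕ} {X : ℕ → ℕ} (m : ℕ) :
    OA R A (preL X m) ⊆ Op R (join A (grX X)) := Op_mono (join_mono (sgS_preL X m))

theorem exists_use {α : Type} {R : α × List ℕ → Prop} {A : Set ℕ} {X : ℕ → ℕ} {n : α}
    (h : n ∈ Op R (join A (grX X))) : ∃ m, ∀ m' ≥ m, n ∈ OA R A (preL X m') := by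
  obtain ⟨c, h1, h2⟩ := h
  refine ⟨c.sum + 1, fun m' hm' => ⟨c, h1, fun i hi => ?_⟩⟩
  have h3 : i ≤ c.sum := List.single_le_sum (by simp) _ hi
  rcases h2 i hi with h4 | h4
  · exact Or.inl h4
  · exact Or.inr ⟨h4.1, mem_sgS_preL h4.2 (by omega)⟩

/-- finitely many uses -/
theorem exists_use_list {R : ℕ × List ℕ → Prop} {A : Set ℕ} {X : ℕ → ℕ} (b : List ℕ)
    (h : ∀ n ∈ b, n ∈ Op R (join A (grX X))) : ∃ m, ∀ n ∈ b, ∀ m' ≥ m, n ∈ OA R A (preL X m') := by
  induction b with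
  | nil => exact ⟨0, by simp⟩
  | cons a b ih =>
    obtain ⟨m1, hm1⟩ := exists_use (h a (List.mem_cons_self))
    obtain ⟨m2, hm2⟩ := ih (fun n hn => h n (List.mem_cons_of_mem _ hn))
    refine ⟨max m1 m2, fun n hn m' hm' => ?_⟩
    rcases List.mem_cons.1 hn with rfl | hn
    · exact hm1 m' ((le_max_left _ _).trans hm')
    · exact hm2 n hn m' ((le_max_right _ _).trans hm')

/-- the conditions to be met -/
def SS (A : Set ℕ) (W : ℕ → ℕ × List ℕ → Prop) (t e1 e0 eψ : ℕ) (σ : List ℕ) : Prop :=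
  if t = 0 then ∃ n, n ∈ OA (W e1) A σ ∧ n ∈ OA (W e0) A σ
  else if t = 1 then ∃ n, ∀ τ, σ <+: τ → n ∉ OA (W e1) A τ ∧ n ∉ OA (W e0) A τ
  else if t = 2 then ∃ k, k ∉ A ∧ k ∈ Op (W eψ) (OA (W e1) A σ)
  else if t = 3 then ∃ k, k ∈ A ∧ ∀ τ, σ <+: τ → k ∉ Op (W eψ) (OA (W e1) A τ)
  else ∃ k, k ∈ sgS σ ∧ k ∉ Op (W e1) A

/-- what is forced -/
structure Forced (A : Set ℕ) (R1 R0 Rψ : ℕ × List ℕ → Prop) (σ : List ℕ) : Prop where
  c1 : ∀ τ, σ <+: τ → ∀ n, ¬ (n ∈ OA R1 A τ ∧ n ∈ OA R0 A τ)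
  c2 : ∀ τ, σ <+: τ → ∀ n, ∃ τ', τ <+: τ' ∧ (n ∈ OA R1 A τ' ∨ n ∈ OA R0 A τ')
  c3 : ∀ τ, σ <+: τ → ∀ k, k ∈ Op Rψ (OA R1 A τ) → k ∈ A
  c4 : ∀ k ∈ A, ∀ τ, σ <+: τ → ∃ τ', τ <+: τ' ∧ k ∈ Op Rψ (OA R1 A τ')

theorem exists_forced {A : Set ℕ} (hA : AlmostTotal A) :
    ∃ (R1 R0 Rψ : ℕ × List ℕ → Prop) (σ : List ℕ), REPred R1 ∧ REPred R0 ∧ REPred Rψ ∧
      Forced A R1 R0 Rψ σ := by
  let W : ℕ → ℕ × List ℕ → Prop := fun e p => ∃ s, wst (ℕ × List ℕ) e s p = true
  have hW1 : ∀ e, REPred (W e) := fun e => wst_re e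
  have hW2 : ∀ R : ℕ × List ℕ → Prop, REPred R → ∃ e, R = W e := by
    intro R hR
    obtain ⟨e, he⟩ := wst_univ hR
    exact ⟨e, funext fun x => propext (he x)⟩
  obtain ⟨X, hX⟩ := exists_generic (fun i => SS A W i.unpair.1 i.unpair.2.unpair.1
    i.unpair.2.unpair.2.unpair.1 i.unpair.2.unpair.2.unpair.2)
  have hX' : ∀ t e1 e0 eψ, ∃ m, SS A W t e1 e0 eψ (preL X m) ∨
      ∀ τ, preL X m <+: τ → ¬ SS A W t e1 e0 eψ τ := by
    intro t e1 e0 eψ
    have := hX (Nat.pair t (Nat.pair e1 (Nat.pair e0 eψ)))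
    simpa using this
  -- the graph of `X` is not below `A`
  have hnot : ¬ ERed (grX X) A := by
    intro hred
    obtain ⟨R, hR, h⟩ := ein_iff.1 (ered_iff.1 hred)
    obtain ⟨e, rfl⟩ := hW2 R hR
    have hgr : grX X = Op (W e) A := by ext i; exact h i
    obtain ⟨m, hm | hm⟩ := hX' 4 e 0 0
    · have hm' : ∃ k, k ∈ sgS (preL X m) ∧ k ∉ Op (W e) A := by simpa [SS] using hm
      obtain ⟨k, h1, h2⟩ := hm'
      exact h2 (hgr ▸ sgS_preL X m h1)
    · refine hm (preL X m ++ [X m + 1]) (List.prefix_append _ _) ?_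
      have : ∃ k, k ∈ sgS (preL X m ++ [X m + 1]) ∧ k ∉ Op (W e) A := by
        refine ⟨Nat.pair m (X m + 1), ?_, ?_⟩
        · show (preL X m ++ [X m + 1])[(Nat.pair m (X m + 1)).unpair.1]? =
            some (Nat.pair m (X m + 1)).unpair.2
          rw [Nat.unpair_pair]
          simp only
          rw [List.getElem?_append_right (by rw [preL_length]), preL_length]
          simp
        · rw [← hgr]
          intro hcon
          have h3 : X (Nat.pair m (X m + 1)).unpair.1 = (Nat.pair m (X m + 1)).unpair.2 := hcon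
          rw [Nat.unpair_pair] at h3
          simp only at h3
          omega
      simpa [SS] using this
  obtain ⟨C, ⟨hJC, hCJ⟩, hCC⟩ := (hA (grX X)).resolve_left hnot
  rw [ered_iff] at hJC hCJ hCC
  obtain ⟨R1, hR1, h1⟩ := ein_iff.1 hCJ
  obtain ⟨R0, hR0, h0⟩ := ein_iff.1 (EIn.trans' hCJ hCC)
  have hAJ : EIn (join A (grX X)) fun n : ℕ => n ∈ A := by
    refine (EIn.mem (B := join A (grX X)) (f := fun n : ℕ => 2 * n) (by fun_prop)).of_eq
      fun n => ?_
    constructor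
    · rintro (h | h)
      · have e1 : 2 * n / 2 = n := by omega
        rw [e1] at h; exact h.2
      · omega
    · intro h
      left
      have e1 : 2 * n / 2 = n := by omega
      rw [e1]; exact ⟨by omega, h⟩
  obtain ⟨Rψ, hRψ, hψ⟩ := ein_iff.1 (EIn.trans' hJC hAJ)
  obtain ⟨e1, rfl⟩ := hW2 R1 hR1
  obtain ⟨e0, rfl⟩ := hW2 R0 hR0
  obtain ⟨eψ, rfl⟩ := hW2 Rψ hRψ
  have hC1 : ∀ n, n ∈ Op (W e1) (join A (grX X)) ↔ n ∈ C := fun n => (h1 n).symm
  have hC0 : ∀ n, n ∈ Op (W e0) (join A (grX X)) ↔ n ∉ C := fun n => (h0 n).symm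
  have hCψ : ∀ n, n ∈ Op (W eψ) C ↔ n ∈ A := fun n => (hψ n).symm
  -- (i)
  obtain ⟨m1, hm1⟩ : ∃ m1, ∀ τ, preL X m1 <+: τ → ¬ SS A W 0 e1 e0 eψ τ := by
    obtain ⟨m, hm | hm⟩ := hX' 0 e1 e0 eψ
    · exfalso
      have hm' : ∃ n, n ∈ OA (W e1) A (preL X m) ∧ n ∈ OA (W e0) A (preL X m) := by
        simpa [SS] using hm
      obtain ⟨n, h2, h3⟩ := hm'
      exact (hC0 n).1 (OA_sub m h3) ((hC1 n).1 (OA_sub m h2))
    · exact ⟨m, hm⟩
  -- (ii)
  obtain ⟨m2, hm2⟩ : ∃ m2, ∀ τ, preL X m2 <+: τ → ¬ SS A W 1 e1 e0 eψ τ := by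
    obtain ⟨m, hm | hm⟩ := hX' 1 e1 e0 eψ
    · exfalso
      have hm' : ∃ n, ∀ τ, preL X m <+: τ → n ∉ OA (W e1) A τ ∧ n ∉ OA (W e0) A τ := by
        simpa [SS] using hm
      obtain ⟨n, h2⟩ := hm'
      by_cases hn : n ∈ C
      · obtain ⟨m', hm'⟩ := exists_use ((hC1 n).2 hn)
        exact (h2 _ (preL_prefix X (le_max_left m m'))).1 (hm' _ (le_max_right m m'))
      · obtain ⟨m', hm'⟩ := exists_use ((hC0 n).2 hn)
        exact (h2 _ (preL_prefix X (le_max_left m m'))).2 (hm' _ (le_max_right m m'))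
    · exact ⟨m, hm⟩
  -- (iii)
  obtain ⟨m3, hm3⟩ : ∃ m3, ∀ τ, preL X m3 <+: τ → ¬ SS A W 2 e1 e0 eψ τ := by
    obtain ⟨m, hm | hm⟩ := hX' 2 e1 e0 eψ
    · exfalso
      have hm' : ∃ k, k ∉ A ∧ k ∈ Op (W eψ) (OA (W e1) A (preL X m)) := by
        simpa [SS] using hm
      obtain ⟨k, h2, h3⟩ := hm'
      apply h2
      rw [← hCψ]
      exact Op_mono (fun n hn => (hC1 n).1 (OA_sub m hn)) h3
    · exact ⟨m, hm⟩
  -- (iv)
  obtain ⟨m4, hm4⟩ : ∃ m4, ∀ τ, preL X m4 <+: τ → ¬ SS A W 3 e1 e0 eψ τ := by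
    obtain ⟨m, hm | hm⟩ := hX' 3 e1 e0 eψ
    · exfalso
      have hm' : ∃ k, k ∈ A ∧ ∀ τ, preL X m <+: τ → k ∉ Op (W eψ) (OA (W e1) A τ) := by
        simpa [SS] using hm
      obtain ⟨k, h2, h3⟩ := hm'
      rw [← hCψ] at h2
      obtain ⟨b, hb, hbC⟩ := h2
      obtain ⟨m', hm'⟩ := exists_use_list b (fun n hn => (hC1 n).2 (hbC n hn))
      exact h3 _ (preL_prefix X (le_max_left m m')) ⟨b, hb, fun n hn => hm' n hn _ (le_max_right m m')⟩
    · exact ⟨m, hm⟩
  refine ⟨W e1, W e0, W eψ, preL X (max (max m1 m2) (max m3 m4)), hR1, hR0, hRψ, ?_⟩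
  have l1 : preL X m1 <+: preL X (max (max m1 m2) (max m3 m4)) := preL_prefix X (by omega)
  have l2 : preL X m2 <+: preL X (max (max m1 m2) (max m3 m4)) := preL_prefix X (by omega)
  have l3 : preL X m3 <+: preL X (max (max m1 m2) (max m3 m4)) := preL_prefix X (by omega)
  have l4 : preL X m4 <+: preL X (max (max m1 m2) (max m3 m4)) := preL_prefix X (by omega)
  refine ⟨?_, ?_, ?_, ?_⟩
  · intro τ hτ n hn
    refine hm1 τ (l1.trans hτ) ?_
    have : ∃ n, n ∈ OA (W e1) A τ ∧ n ∈ OA (W e0) A τ := ⟨n, hn⟩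
    simpa [SS] using this
  · intro τ hτ n
    by_contra hcon
    push Not at hcon
    refine hm2 τ (l2.trans hτ) ?_
    have : ∃ n, ∀ τ', τ <+: τ' → n ∉ OA (W e1) A τ' ∧ n ∉ OA (W e0) A τ' := ⟨n, hcon⟩
    simpa [SS] using this
  · intro τ hτ k hk
    by_contra hcon
    refine hm3 τ (l3.trans hτ) ?_
    have : ∃ k, k ∉ A ∧ k ∈ Op (W eψ) (OA (W e1) A τ) := ⟨k, hcon, hk⟩
    simpa [SS] using this
  · intro k hk τ hτ
    by_contra hcon
    push Not at hcon
    refine hm4 τ (l4.trans hτ) ?_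
    have : ∃ k, k ∈ A ∧ ∀ τ', τ <+: τ' → k ∉ Op (W eψ) (OA (W e1) A τ') := ⟨k, hk, hcon⟩
    simpa [SS] using this

end Q206.ATot
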