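import Mathlib
import Pool.Agent.Helper446.Comp

/-!
# The class of independent supersets of a set
-/

namespace Q206.ATot

open Pool.Agent.Helper446.RE

/-- the number coding the first `s` bits -/
def pre (Q : ℕ → Bool) (s : ℕ) : ℕ := Nat.ofBits (fun i : Fin s => Q i)

theorem testBit_pre (Q : ℕ → Bool) (s i : ℕ) : (pre Q s).testBit i = (decide (i < s) && Q i) := by
  unfold pre
  by_cases h : i < s
  · rw [Nat.testBit_ofBits_lt _ _ h]; simp [h]
  · rw [Nat.testBit_ofBits_ge _ _ (not_lt.1 h)]; simp [h]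

theorem pre_lt (Q : ℕ → Bool) (s : ℕ) : pre Q s < 2 ^ s := Nat.ofBits_lt_two_pow _

theorem pre_mod (Q : ℕ → Bool) {s s' : ℕ} (h : s ≤ s') : pre Q s' % 2 ^ s = pre Q s := by
  apply Nat.eq_of_testBit_eq
  intro i
  rw [Nat.testBit_mod_two_pow, testBit_pre, testBit_pre]
  by_cases h1 : i < s
  · have : i < s' := by omega
    simp [h1, this]
  · simp [h1]

theorem pre_testBit (τ s : ℕ) : pre (fun i => τ.testBit i) s = τ % 2 ^ s := by
  apply Nat.eq_of_testBit_eq
  intro i
  rw [testBit_pre, Nat.testBit_mod_two_pow]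

theorem continuous_pre (s : ℕ) : Continuous (fun Q : ℕ → Bool => pre Q s) := by
  have h1 : Continuous (fun Q : ℕ → Bool => fun i : Fin s => Q i) := by fun_prop
  have h2 : Continuous (fun f : Fin s → Bool => Nat.ofBits f) := continuous_of_discreteTopology
  exact h2.comp h1

theorem mod_mod_pow (z : ℕ) {s s' : ℕ} (h : s ≤ s') : z % 2 ^ s' % 2 ^ s = z % 2 ^ s :=
  Nat.mod_mod_of_dvd z (pow_dvd_pow 2 h)

/-- first labels -/
def LU (u w : ℕ → ℕ → Bool) (s z : ℕ) : Bool :=
  exB (fun s' => u s' (z % 2 ^ s') && allB (fun s'' => !(w s'' (z % 2 ^ s''))) s') (s + 1)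

/-- first labels -/
def LW (u w : ℕ → ℕ → Bool) (s z : ℕ) : Bool :=
  exB (fun s' => w s' (z % 2 ^ s') && allB (fun s'' => !(u s'' (z % 2 ^ s''))) (s' + 1)) (s + 1)

theorem LU_iff {u w : ℕ → ℕ → Bool} {s z : ℕ} : LU u w s z = true ↔
    ∃ s' ≤ s, u s' (z % 2 ^ s') = true ∧ ∀ s'' < s', w s'' (z % 2 ^ s'') = false := by
  unfold LU
  rw [exB_iff]
  simp only [Bool.and_eq_true, allB_iff, Bool.not_eq_true', Nat.lt_succ_iff]

theorem LW_iff {u w : ℕ → ℕ → Bool} {s z : ℕ} : LW u w s z = true ↔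
    ∃ s' ≤ s, w s' (z % 2 ^ s') = true ∧ ∀ s'' ≤ s', u s'' (z % 2 ^ s'') = false := by
  unfold LW
  rw [exB_iff]
  simp only [Bool.and_eq_true, allB_iff, Bool.not_eq_true', Nat.lt_succ_iff]

/-- monotone predicates on strings -/
def Mono (G : ℕ → ℕ → Bool) : Prop := ∀ s s' z, s ≤ s' → G s (z % 2 ^ s) = true → G s' z = true

theorem LU_mono (u w : ℕ → ℕ → Bool) : Mono (LU u w) := by
  intro s s' z h h1
  rw [LU_iff] at h1 ⊢
  obtain ⟨a, ha, h2, h3⟩ := h1
  rw [mod_mod_pow z ha] at h2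
  refine ⟨a, ha.trans h, h2, fun b hb => ?_⟩
  have := h3 b hb
  rwa [mod_mod_pow z (by omega)] at this

theorem LW_mono (u w : ℕ → ℕ → Bool) : Mono (LW u w) := by
  intro s s' z h h1
  rw [LW_iff] at h1 ⊢
  obtain ⟨a, ha, h2, h3⟩ := h1
  rw [mod_mod_pow z ha] at h2
  refine ⟨a, ha.trans h, h2, fun b hb => ?_⟩
  have := h3 b hb
  rwa [mod_mod_pow z (by omega)] at this

theorem not_LU_LW {u w : ℕ → ℕ → Bool} {s z : ℕ} (h1 : LU u w s z = true)
    (h2 : LW u w s z = true) : False := by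
  rw [LU_iff] at h1
  rw [LW_iff] at h2
  obtain ⟨a, ha, h3, h4⟩ := h1
  obtain ⟨b, hb, h5, h6⟩ := h2
  rcases Nat.lt_or_ge b a with h | h
  · have := h4 b h; rw [h5] at this; simp at this
  · have := h6 a h; rw [h3] at this; simp at this

/-- the hypotheses on a set `E`, a conflict relation and an enumeration of `E` from its
independent supersets -/
structure Core (E : Set ℕ) (cf : ℕ → ℕ → Bool) (th : ℕ → ℕ → ℕ → Bool) : Prop where
  indep : ∀ x ∈ E, ∀ y ∈ E, cf x y = false
  sound : ∀ Q : ℕ → Bool, (∀ n ∈ E, Q n = true) →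
    (∀ x y, Q x = true → Q y = true → cf x y = false) → ∀ s e, th s (pre Q s) e = true → e ∈ E
  complete : ∀ Q : ℕ → Bool, (∀ n ∈ E, Q n = true) →
    (∀ x y, Q x = true → Q y = true → cf x y = false) → ∀ e ∈ E, ∃ s, th s (pre Q s) e = true
  mono : ∀ s s' z e, s ≤ s' → th s (z % 2 ^ s) e = true → th s' z e = true

/-- independence of strings -/
def ind (cf : ℕ → ℕ → Bool) (s τ : ℕ) : Bool :=
  allB (fun x => allB (fun y => !(τ.testBit x && τ.testBit y && cf x y)) s) s

/-- strings which are possible, given what is enumerated from `z` -/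
def NN (cf : ℕ → ℕ → Bool) (th : ℕ → ℕ → ℕ → Bool) (s z τ : ℕ) : Bool :=
  ind cf s τ && allB (fun e => !(th s z e) || τ.testBit e) s

/-- all possible strings satisfy `G` -/
def oG (cf : ℕ → ℕ → Bool) (th : ℕ → ℕ → ℕ → Bool) (G : ℕ → ℕ → Bool) (s z : ℕ) : Bool :=
  allB (fun τ => !(NN cf th s z τ) || G s τ) (2 ^ s)

theorem ind_iff {cf : ℕ → ℕ → Bool} {s τ : ℕ} : ind cf s τ = true ↔
    ∀ x < s, ∀ y < s, τ.testBit x = true → τ.testBit y = true → cf x y = false := by
  unfold ind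
  simp only [allB_iff]
  constructor
  · intro h x hx y hy h1 h2
    have := h x hx y hy
    simpa [h1, h2] using this
  · intro h x hx y hy
    have := h x hx y hy
    by_cases h1 : τ.testBit x = true <;> by_cases h2 : τ.testBit y = true
    · simp [h1, h2, this h1 h2]
    all_goals simp_all

theorem NN_iff {cf : ℕ → ℕ → Bool} {th : ℕ → ℕ → ℕ → Bool} {s z τ : ℕ} :
    NN cf th s z τ = true ↔ ind cf s τ = true ∧
      ∀ e < s, th s z e = true → τ.testBit e = true := by
  unfold NN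
  rw [Bool.and_eq_true, allB_iff]
  refine and_congr Iff.rfl (forall_congr' fun e => forall_congr' fun _ => ?_)
  cases th s z e <;> simp

theorem oG_iff {cf : ℕ → ℕ → Bool} {th : ℕ → ℕ → ℕ → Bool} {G : ℕ → ℕ → Bool} {s z : ℕ} :
    oG cf th G s z = true ↔ ∀ τ < 2 ^ s, NN cf th s z τ = true → G s τ = true := by
  unfold oG
  rw [allB_iff]
  refine forall_congr' fun τ => forall_congr' fun _ => ?_
  cases NN cf th s z τ <;> simp

variable {E : Set ℕ} {cf : ℕ → ℕ → Bool} {th : ℕ → ℕ → ℕ → Bool}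

/-- independent supersets -/
def PE (E : Set ℕ) (cf : ℕ → ℕ → Bool) (Q : ℕ → Bool) : Prop :=
  (∀ n ∈ E, Q n = true) ∧ ∀ x y, Q x = true → Q y = true → cf x y = false

/-- some independent superset meets `u` -/
def Some' (E : Set ℕ) (cf : ℕ → ℕ → Bool) (u : ℕ → ℕ → Bool) : Prop :=
  ∃ Q, PE E cf Q ∧ ∃ s, u s (pre Q s) = true

/-- all independent supersets meet `u` -/
def All' (E : Set ℕ) (cf : ℕ → ℕ → Bool) (u : ℕ → ℕ → Bool) : Prop :=
  ∀ Q, PE E cf Q → ∃ s, u s (pre Q s) = true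

open scoped Classical in
/-- characteristic function of `E` -/
noncomputable def chE (E : Set ℕ) (n : ℕ) : Bool := if n ∈ E then true else false

theorem chE_iff {n : ℕ} : chE E n = true ↔ n ∈ E := by
  classical
  simp [chE]

theorem Core.pE (h : Core E cf th) : PE E cf (chE E) :=
  ⟨fun n hn => chE_iff.2 hn, fun x y hx hy => h.indep x (chE_iff.1 hx) y (chE_iff.1 hy)⟩

theorem Core.all_some (h : Core E cf th) {u : ℕ → ℕ → Bool} (hu : All' E cf u) :
    Some' E cf u := ⟨chE E, h.pE, hu _ h.pE⟩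

theorem ind_pre {Q : ℕ → Bool} (hQ : PE E cf Q) (s : ℕ) : ind cf s (pre Q s) = true := by
  rw [ind_iff]
  intro x hx y hy h1 h2
  rw [testBit_pre] at h1 h2
  simp only [Bool.and_eq_true, decide_eq_true_eq] at h1 h2
  exact hQ.2 x y h1.2 h2.2

theorem Core.mem_NN (h : Core E cf th) {Q Q0 : ℕ → Bool} (hQ : PE E cf Q) (hQ0 : PE E cf Q0)
    (s : ℕ) : NN cf th s (pre Q0 s) (pre Q s) = true := by
  rw [NN_iff]
  refine ⟨ind_pre hQ s, fun e he h1 => ?_⟩
  rw [testBit_pre]
  have := hQ.1 e (h.sound Q0 hQ0.1 hQ0.2 s e h1)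
  simp [he, this]

/-- compactness -/
theorem Core.compact (h : Core E cf th) {G : ℕ → ℕ → Bool} (hG : Mono G) (hall : All' E cf G) :
    ∃ s, ∀ τ, ind cf s τ = true → (∀ e < s, e ∈ E → τ.testBit e = true) →
      G s (τ % 2 ^ s) = true := by
  by_contra hcon
  push Not at hcon
  let K : ℕ → Set (ℕ → Bool) := fun s => {Q | ind cf s (pre Q s) = true ∧
    (∀ e < s, e ∈ E → (pre Q s).testBit e = true) ∧ G s (pre Q s) ≠ true}
  have hK1 : ∀ s, IsClosed (K s) := by
    intro s
    have : K s = (fun Q : ℕ → Bool => pre Q s) ⁻¹' {τ | ind cf s τ = true ∧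
        (∀ e < s, e ∈ E → τ.testBit e = true) ∧ G s τ ≠ true} := rfl
    rw [this]
    exact (isClosed_discrete _).preimage (continuous_pre s)
  have hK2 : ∀ s, (K s).Nonempty := by
    intro s
    obtain ⟨τ, h1, h2, h3⟩ := hcon s
    refine ⟨fun i => τ.testBit i, ?_, ?_, ?_⟩
    · rw [pre_testBit, ind_iff]
      rw [ind_iff] at h1
      intro x hx y hy
      simp only [Nat.testBit_mod_two_pow, hx, hy, decide_true, Bool.true_and]
      exact h1 x hx y hy
    · intro e he hE
      rw [pre_testBit, Nat.testBit_mod_two_pow]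
      simp [he, h2 e he hE]
    · rw [pre_testBit]; exact h3
  have hK3 : ∀ s, K (s + 1) ⊆ K s := by
    rintro s Q ⟨h1, h2, h3⟩
    refine ⟨?_, ?_, ?_⟩
    · rw [ind_iff] at h1 ⊢
      intro x hx y hy h4 h5
      rw [testBit_pre] at h4 h5
      simp only [Bool.and_eq_true, decide_eq_true_eq] at h4 h5
      apply h1 x (by omega) y (by omega)
      · rw [testBit_pre]; simp [h4.2]; omega
      · rw [testBit_pre]; simp [h5.2]; omega
    · intro e he hE
      have := h2 e (by omega) hE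
      rw [testBit_pre] at this ⊢
      simp only [Bool.and_eq_true, decide_eq_true_eq] at this ⊢
      exact ⟨he, this.2⟩
    · intro h4
      apply h3
      apply hG s (s + 1) _ (by omega)
      rw [pre_mod Q (by omega)]
      exact h4
  obtain ⟨Q, hQ⟩ := IsCompact.nonempty_iInter_of_sequence_nonempty_isCompact_isClosed K hK3 hK2
    (hK1 0).isCompact hK1
  rw [Set.mem_iInter] at hQ
  have hPE : PE E cf Q := by
    constructor
    · intro n hn
      have := (hQ (n + 1)).2.1 n (by omega) hn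
      rw [testBit_pre] at this
      simp only [Bool.and_eq_true, decide_eq_true_eq] at this
      exact this.2
    · intro x y hx hy
      have := (hQ (x + y + 1)).1
      rw [ind_iff] at this
      apply this x (by omega) y (by omega)
      · rw [testBit_pre]; simp [hx]
      · rw [testBit_pre]; simp [hy]
  obtain ⟨s, hs⟩ := hall Q hPE
  exact (hQ s).2.2 hs

theorem Core.th_mono' (h : Core E cf th) {Q : ℕ → Bool} {s s' e : ℕ} (hs : s ≤ s')
    (h1 : th s (pre Q s) e = true) : th s' (pre Q s') e = true := by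
  apply h.mono s s' _ e hs
  rw [pre_mod Q hs]
  exact h1

/-- eventually all elements of `E` below a bound are enumerated -/
theorem Core.exists_stage (h : Core E cf th) {Q : ℕ → Bool} (hQ : PE E cf Q) (s1 : ℕ) :
    ∃ s ≥ s1, ∀ e < s1, e ∈ E → th s (pre Q s) e = true := by
  have h1 : ∀ e, ∃ s, e ∈ E → th s (pre Q s) e = true := by
    intro e
    by_cases he : e ∈ E
    · obtain ⟨s, hs⟩ := h.complete Q hQ.1 hQ.2 e he
      exact ⟨s, fun _ => hs⟩
    · exact ⟨0, fun h => absurd h he⟩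
  choose F hF using h1
  refine ⟨max s1 ((Finset.range s1).sup F), le_max_left _ _, fun e he hE => ?_⟩
  exact h.th_mono' (le_trans (Finset.le_sup (f := F) (Finset.mem_range.2 he)) (le_max_right _ _))
    (hF e hE)

theorem Core.all_oG (h : Core E cf th) {G : ℕ → ℕ → Bool} (hG : Mono G) (hall : All' E cf G) :
    All' E cf (oG cf th G) := by
  intro Q hQ
  obtain ⟨s1, hs1⟩ := h.compact hG hall
  obtain ⟨s, hs, hE⟩ := h.exists_stage hQ s1
  refine ⟨s, oG_iff.2 fun τ hτ hN => ?_⟩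
  rw [NN_iff] at hN
  obtain ⟨h1, h2⟩ := hN
  apply hG s1 s τ hs
  apply hs1
  · rw [ind_iff] at h1 ⊢
    intro x hx y hy
    exact h1 x (by omega) y (by omega)
  · intro e he heE
    exact h2 e (by omega) (hE e he heE)

theorem Core.all_of_some_oG (h : Core E cf th) {G : ℕ → ℕ → Bool}
    (hs : Some' E cf (oG cf th G)) : All' E cf G := by
  obtain ⟨Q0, hQ0, s, h1⟩ := hs
  intro Q hQ
  rw [oG_iff] at h1
  exact ⟨s, h1 _ (pre_lt Q s) (h.mem_NN hQ hQ0 s)⟩

/-- saturation -/
def Sat (E : Set ℕ) (cf : ℕ → ℕ → Bool) (u : ℕ → ℕ → Bool) : Prop := Some' E cf u → All' E cf u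

theorem Core.sat_oG (h : Core E cf th) {G : ℕ → ℕ → Bool} (hG : Mono G) :
    Sat E cf (oG cf th G) := fun hs => h.all_oG hG (h.all_of_some_oG hs)

theorem Core.some_oG_iff (h : Core E cf th) {G : ℕ → ℕ → Bool} (hG : Mono G) :
    Some' E cf (oG cf th G) ↔ All' E cf G :=
  ⟨h.all_of_some_oG, fun ha => h.all_some (h.all_oG hG ha)⟩

section Interp

variable {u w : ℕ → ℕ → Bool}

theorem Core.not_both (h : Core E cf th) (h1 : Some' E cf (oG cf th (LU u w)))
    (h2 : Some' E cf (oG cf th (LW u w))) : False := by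
  obtain ⟨s, hs⟩ := h.all_of_some_oG h1 _ h.pE
  obtain ⟨t, ht⟩ := h.all_of_some_oG h2 _ h.pE
  refine not_LU_LW (u := u) (w := w) (s := max s t) (z := pre (chE E) (max s t)) ?_ ?_
  · apply LU_mono u w s _ _ (le_max_left _ _)
    rw [pre_mod _ (le_max_left _ _)]; exact hs
  · apply LW_mono u w t _ _ (le_max_right _ _)
    rw [pre_mod _ (le_max_right _ _)]; exact ht

theorem Core.oU_or (h : Core E cf th) (hu : Sat E cf u) (hc : Some' E cf u ∨ Some' E cf w) :
    Some' E cf (oG cf th (LU u w)) ∨ Some' E cf w := by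
  by_cases hw : Some' E cf w
  · exact Or.inr hw
  · left
    have hau := hu (hc.resolve_right hw)
    rw [h.some_oG_iff (LU_mono u w)]
    intro Q hQ
    obtain ⟨s, hs⟩ := hau Q hQ
    refine ⟨s, LU_iff.2 ⟨s, le_rfl, ?_, fun t ht => ?_⟩⟩
    · rw [pre_mod Q le_rfl]; exact hs
    · rw [pre_mod Q ht.le]
      by_contra hcon
      exact hw ⟨Q, hQ, t, by simpa using hcon⟩

theorem Core.or_oW (h : Core E cf th) (hw : Sat E cf w) (hc : Some' E cf u ∨ Some' E cf w) :
    Some' E cf u ∨ Some' E cf (oG cf th (LW u w)) := by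
  by_cases hu : Some' E cf u
  · exact Or.inl hu
  · right
    have haw := hw (hc.resolve_left hu)
    rw [h.some_oG_iff (LW_mono u w)]
    intro Q hQ
    obtain ⟨s, hs⟩ := haw Q hQ
    refine ⟨s, LW_iff.2 ⟨s, le_rfl, ?_, fun t ht => ?_⟩⟩
    · rw [pre_mod Q le_rfl]; exact hs
    · rw [pre_mod Q ht]
      by_contra hcon
      exact hu ⟨Q, hQ, t, by simpa using hcon⟩

theorem Core.oU_sub (h : Core E cf th) (h1 : Some' E cf (oG cf th (LU u w))) :
    Some' E cf u := by
  obtain ⟨s, hs⟩ := h.all_of_some_oG h1 _ h.pE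
  obtain ⟨t, ht, h2, -⟩ := LU_iff.1 hs
  rw [pre_mod _ ht] at h2
  exact ⟨_, h.pE, t, h2⟩

theorem Core.oW_sub (h : Core E cf th) (h1 : Some' E cf (oG cf th (LW u w))) :
    Some' E cf w := by
  obtain ⟨s, hs⟩ := h.all_of_some_oG h1 _ h.pE
  obtain ⟨t, ht, h2, -⟩ := LW_iff.1 hs
  rw [pre_mod _ ht] at h2
  exact ⟨_, h.pE, t, h2⟩

end Interp

/-- `Some'` in terms of finite information -/
theorem Core.some_iff_fin (h : Core E cf th) {u : ℕ → ℕ → Bool} (hu : Sat E cf u) :
    Some' E cf u ↔ ∃ (c : List ℕ) (s : ℕ), (∀ i ∈ c, i ∈ E) ∧ ∀ τ < 2 ^ s, ind cf s τ = true →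
      (∀ i ∈ c, i < s → τ.testBit i = true) → ∃ s' ≤ s, u s' (τ % 2 ^ s') = true := by
  constructor
  · intro hs
    let G : ℕ → ℕ → Bool := fun s τ => exB (fun s' => u s' (τ % 2 ^ s')) (s + 1)
    have hG : Mono G := by
      intro s s' z hss h1
      simp only [G, exB_iff] at h1 ⊢
      obtain ⟨a, ha, h2⟩ := h1
      rw [mod_mod_pow z (by omega)] at h2
      exact ⟨a, by omega, h2⟩
    have hall : All' E cf G := by
      intro Q hQ
      obtain ⟨s, hs⟩ := hu hs Q hQ
      refine ⟨s, ?_⟩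
      simp only [G, exB_iff]
      exact ⟨s, by omega, by rw [pre_mod Q le_rfl]; exact hs⟩
    obtain ⟨s, hs⟩ := h.compact hG hall
    classical
    refine ⟨(List.range s).filter (fun e => e ∈ E), s, ?_, ?_⟩
    · intro i hi
      rw [List.mem_filter] at hi
      simpa using hi.2
    · intro τ hτ h1 h2
      have h3 := hs τ h1 (fun e he hE => h2 e (by
        rw [List.mem_filter, List.mem_range]; exact ⟨he, by simpa using hE⟩) he)
      simp only [G, exB_iff] at h3
      obtain ⟨a, ha, h4⟩ := h3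
      rw [mod_mod_pow τ (by omega)] at h4
      exact ⟨a, by omega, h4⟩
  · rintro ⟨c, s, hc, h1⟩
    obtain ⟨s', hs', h2⟩ := h1 (pre (chE E) s) (pre_lt _ _) (ind_pre h.pE s) (by
      intro i hi his
      rw [testBit_pre]
      have := chE_iff.2 (hc i hi)
      simp [his, this])
    rw [pre_mod _ hs'] at h2
    exact ⟨_, h.pE, s', h2⟩

end Q206.ATot
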