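import Pool.Agent.Q206.ATot.Ury
import Pool.Agent.H288R3.CGC.Final

/-!
# Computability of the events
-/

namespace Q206.ATot

open Encodable Pool.Agent.Helper446.RE Pool.Agent.Helper446.CB Pool.Agent.H288R3.CGC

section basic

variable {α β γ : Type} [Primcodable α] [Primcodable β] [Primcodable γ]

@[fun_prop] theorem cmod' {f g : α → ℕ} (hf : Computable f) (hg : Computable g) :
    Computable fun a => f a % g a := Primrec.nat_mod.to_comp.comp hf hg

@[fun_prop] theorem cdiv' {f g : α → ℕ} (hf : Computable f) (hg : Computable g) :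
    Computable fun a => f a / g a := Primrec.nat_div.to_comp.comp hf hg

@[fun_prop] theorem ctestBit {f g : α → ℕ} (hf : Computable f) (hg : Computable g) :
    Computable fun a => (f a).testBit (g a) := testBit_comp.comp (hf.pair hg)

@[fun_prop] theorem cdeq {f g : α → ℕ} (hf : Computable f) (hg : Computable g) :
    Computable fun a => decide (f a = g a) := cdecide (cp_eq hf hg)

@[fun_prop] theorem cdle {f g : α → ℕ} (hf : Computable f) (hg : Computable g) :
    Computable fun a => decide (f a ≤ g a) := cdecide (cp_le hf hg)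

@[fun_prop] theorem cdlt {f g : α → ℕ} (hf : Computable f) (hg : Computable g) :
    Computable fun a => decide (f a < g a) := cdecide (cp_lt hf hg)

theorem cmap {l : α → List β} {g : α → β → γ} (hl : Computable l)
    (hg : Computable fun p : α × β => g p.1 p.2) : Computable fun a => (l a).map (g a) := by
  have h1 := list_foldl (f := l) (g := fun _ => ([] : List γ))
    (h := fun a (p : List γ × β) => p.1 ++ [g a p.2]) hl (Computable.const []) (by
      unfold Computable₂
      have h2 : Computable fun q : α × (List γ × β) => g q.1 q.2.2 :=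
        hg.comp (f := fun p : α × β => g p.1 p.2) (g := fun q : α × (List γ × β) => (q.1, q.2.2))
          (by fun_prop)
      exact cappend (by fun_prop) (ccons h2 (cconst [])))
  refine h1.of_eq fun a => ?_
  have : ∀ (l : List β) (acc : List γ), l.foldl (fun s b => s ++ [g a b]) acc = acc ++ l.map (g a) := by
    intro l
    induction l with
    | nil => intro acc; simp
    | cons b l ih => intro acc; rw [List.foldl_cons, ih]; simp
  rw [this]; simp

theorem call {q : α → ℕ → Bool} (hq : Computable fun p : α × ℕ => q p.1 p.2) {f : α → ℕ}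
    (hf : Computable f) : Computable fun a => allB (q a) (f a) := computable_allB hq hf

theorem cex {q : α → ℕ → Bool} (hq : Computable fun p : α × ℕ => q p.1 p.2) {f : α → ℕ}
    (hf : Computable f) : Computable fun a => exB (q a) (f a) := computable_exB hq hf

theorem cgetD {l : α → List (Bool × Bool)} {f : α → ℕ} (hl : Computable l) (hf : Computable f) :
    Computable fun a => ((l a)[f a]?).getD (false, false) :=
  (Primrec.option_getD.comp Primrec.id (Primrec.const (false, false))).to_comp.comp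
    (Computable.list_getElem?.comp hl hf)

end basic

variable {cf : ℕ → ℕ → Bool} {th : ℕ → ℕ → ℕ → Bool}

/-- computability of the data -/
structure CD (cf : ℕ → ℕ → Bool) (th : ℕ → ℕ → ℕ → Bool) : Prop where
  hcf : Computable fun p : ℕ × ℕ => cf p.1 p.2
  hth : Computable fun p : (ℕ × ℕ) × ℕ => th p.1.1 p.1.2 p.2

section ops

variable {α : Type} [Primcodable α]

theorem CD.ccf (h : CD cf th) {f g : α → ℕ} (hf : Computable f) (hg : Computable g) :
    Computable fun a => cf (f a) (g a) := h.hcf.comp (hf.pair hg)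

theorem CD.cth (h : CD cf th) {f g k : α → ℕ} (hf : Computable f) (hg : Computable g)
    (hk : Computable k) : Computable fun a => th (f a) (g a) (k a) :=
  h.hth.comp ((hf.pair hg).pair hk)

theorem CD.cind (h : CD cf th) {s τ : α → ℕ} (hs : Computable s) (hτ : Computable τ) :
    Computable fun a => ind cf (s a) (τ a) := by
  unfold ind
  refine call (q := fun a x => allB (fun y => !((τ a).testBit x && (τ a).testBit y && cf x y)) (s a))
    ?_ hs
  refine call (q := fun (p : α × ℕ) y => !((τ p.1).testBit p.2 && (τ p.1).testBit y && cf p.2 y))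
    ?_ (by fun_prop)
  have h1 : Computable fun p : (α × ℕ) × ℕ => cf p.1.2 p.2 := h.ccf (by fun_prop) (by fun_prop)
  exact cnot (cand (cand (by fun_prop) (by fun_prop)) h1)

theorem CD.cNN (h : CD cf th) {s z τ : α → ℕ} (hs : Computable s) (hz : Computable z)
    (hτ : Computable τ) : Computable fun a => NN cf th (s a) (z a) (τ a) := by
  unfold NN
  refine cand (h.cind hs hτ) ?_
  refine call (q := fun a e => !(th (s a) (z a) e) || (τ a).testBit e) ?_ hs
  have h1 : Computable fun p : α × ℕ => th (s p.1) (z p.1) p.2 :=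
    h.cth (by fun_prop) (by fun_prop) (by fun_prop)
  exact cor (cnot h1) (by fun_prop)

theorem CD.coG (h : CD cf th) {G : α → ℕ → ℕ → Bool}
    (hG : Computable fun p : α × (ℕ × ℕ) => G p.1 p.2.1 p.2.2) {s z : α → ℕ}
    (hs : Computable s) (hz : Computable z) :
    Computable fun a => oG cf th (G a) (s a) (z a) := by
  unfold oG
  refine call (q := fun a τ => !(NN cf th (s a) (z a) τ) || G a (s a) τ) ?_ (by fun_prop)
  have h1 : Computable fun p : α × ℕ => NN cf th (s p.1) (z p.1) p.2 :=
    h.cNN (by fun_prop) (by fun_prop) (by fun_prop)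
  have h2 : Computable fun p : α × ℕ => G p.1 (s p.1) p.2 :=
    hG.comp (g := fun p : α × ℕ => (p.1, (s p.1, p.2))) (by fun_prop)
  exact cor (cnot h1) h2

theorem cLU {u w : α → ℕ → ℕ → Bool}
    (hu : Computable fun p : α × (ℕ × ℕ) => u p.1 p.2.1 p.2.2)
    (hw : Computable fun p : α × (ℕ × ℕ) => w p.1 p.2.1 p.2.2) {s z : α → ℕ}
    (hs : Computable s) (hz : Computable z) :
    Computable fun a => LU (u a) (w a) (s a) (z a) := by
  unfold LU
  refine cex (q := fun a s' => u a s' (z a % 2 ^ s') &&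
    allB (fun s'' => !(w a s'' (z a % 2 ^ s''))) s') ?_ (by fun_prop)
  refine cand ?_ ?_
  · exact hu.comp (g := fun p : α × ℕ => (p.1, (p.2, z p.1 % 2 ^ p.2))) (by fun_prop)
  · refine call (q := fun (p : α × ℕ) s'' => !(w p.1 s'' (z p.1 % 2 ^ s''))) ?_ (by fun_prop)
    exact cnot (hw.comp (g := fun p : (α × ℕ) × ℕ => (p.1.1, (p.2, z p.1.1 % 2 ^ p.2)))
      (by fun_prop))

theorem cLW {u w : α → ℕ → ℕ → Bool}
    (hu : Computable fun p : α × (ℕ × ℕ) => u p.1 p.2.1 p.2.2)
    (hw : Computable fun p : α × (ℕ × ℕ) => w p.1 p.2.1 p.2.2) {s z : α → ℕ}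
    (hs : Computable s) (hz : Computable z) :
    Computable fun a => LW (u a) (w a) (s a) (z a) := by
  unfold LW
  refine cex (q := fun a s' => w a s' (z a % 2 ^ s') &&
    allB (fun s'' => !(u a s'' (z a % 2 ^ s''))) (s' + 1)) ?_ (by fun_prop)
  refine cand ?_ ?_
  · exact hw.comp (g := fun p : α × ℕ => (p.1, (p.2, z p.1 % 2 ^ p.2))) (by fun_prop)
  · refine call (q := fun (p : α × ℕ) s'' => !(u p.1 s'' (z p.1 % 2 ^ s''))) ?_ (by fun_prop)
    exact cnot (hu.comp (g := fun p : (α × ℕ) × ℕ => (p.1.1, (p.2, z p.1.1 % 2 ^ p.2)))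
      (by fun_prop))

end ops

/-! ### Tables -/

/-- look up a table -/
def lk2 (l : List (Bool × Bool)) (k s z : ℕ) : Bool × Bool :=
  (l[Nat.pair k (Nat.pair s z)]?).getD (false, false)

/-- one step of the recursion -/
def newval (cf : ℕ → ℕ → Bool) (th : ℕ → ℕ → ℕ → Bool) (l : List (Bool × Bool)) (k s z : ℕ) :
    Bool × Bool :=
  if k % 2 = 0 then lk2 l (k / 2) s z else
    (oG cf th (LU (fun s z => (lk2 l (k / 2 + 1) s z).1)
      (fun s z => (lk2 l (k / 2) s z).2)) s z,
     oG cf th (LW (fun s z => (lk2 l (k / 2 + 1) s z).1)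
      (fun s z => (lk2 l (k / 2) s z).2)) s z)

/-- base of the recursion -/
def base (cf : ℕ → ℕ → Bool) (th : ℕ → ℕ → ℕ → Bool) (κ k s z : ℕ) : Bool × Bool :=
  (decide (k = 1) && u0 th κ s z, decide (k = 0) && w0 cf th κ s z)

/-- the tables -/
def Tb (cf : ℕ → ℕ → Bool) (th : ℕ → ℕ → ℕ → Bool) (κ B : ℕ) : ℕ → List (Bool × Bool)
  | 0 => (List.range B).map
      (fun i => base cf th κ i.unpair.1 i.unpair.2.unpair.1 i.unpair.2.unpair.2)
  | m + 1 => (List.range B).map
      (fun i => newval cf th (Tb cf th κ B m) i.unpair.1 i.unpair.2.unpair.1 i.unpair.2.unpair.2)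

theorem lk2_map {f : ℕ → Bool × Bool} {B k s z : ℕ} (h : Nat.pair k (Nat.pair s z) < B) :
    lk2 ((List.range B).map f) k s z = f (Nat.pair k (Nat.pair s z)) := by
  unfold lk2
  rw [List.getElem?_map, List.getElem?_range h]
  rfl

theorem oG_congr {G G' : ℕ → ℕ → Bool} {s z : ℕ} (h : ∀ τ < 2 ^ s, G s τ = G' s τ) :
    oG cf th G s z = oG cf th G' s z := by
  rw [Bool.eq_iff_iff, oG_iff, oG_iff]
  refine forall_congr' fun τ => forall_congr' fun hτ => ?_
  rw [h τ hτ]

theorem LU_congr {u w u' w' : ℕ → ℕ → Bool} {s z : ℕ}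
    (hu : ∀ s' ≤ s, u s' (z % 2 ^ s') = u' s' (z % 2 ^ s'))
    (hw : ∀ s' ≤ s, w s' (z % 2 ^ s') = w' s' (z % 2 ^ s')) : LU u w s z = LU u' w' s z := by
  rw [Bool.eq_iff_iff, LU_iff, LU_iff]
  refine exists_congr fun a => and_congr_right fun ha => ?_
  rw [hu a ha]
  refine and_congr_right fun _ => forall_congr' fun b => forall_congr' fun hb => ?_
  rw [hw b (by omega)]

theorem LW_congr {u w u' w' : ℕ → ℕ → Bool} {s z : ℕ}
    (hu : ∀ s' ≤ s, u s' (z % 2 ^ s') = u' s' (z % 2 ^ s'))
    (hw : ∀ s' ≤ s, w s' (z % 2 ^ s') = w' s' (z % 2 ^ s')) : LW u w s z = LW u' w' s z := by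
  rw [Bool.eq_iff_iff, LW_iff, LW_iff]
  refine exists_congr fun a => and_congr_right fun ha => ?_
  rw [hw a ha]
  refine and_congr_right fun _ => forall_congr' fun b => forall_congr' fun hb => ?_
  rw [hu b (by omega)]

theorem lk2_Tb {κ B K S : ℕ} (hK : 1 ≤ K)
    (hB : ∀ k ≤ K, ∀ s ≤ S, ∀ z < 2 ^ S, Nat.pair k (Nat.pair s z) < B) (m : ℕ) :
    ∀ k ≤ K, ∀ s ≤ S, ∀ z < 2 ^ S, lk2 (Tb cf th κ B m) k s z = ev cf th κ m k s z := by
  induction m with
  | zero =>
    intro k hk s hs z hz
    rw [Tb, lk2_map (hB k hk s hs z hz)]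
    simp only [Nat.unpair_pair]
    rfl
  | succ m ih =>
    intro k hk s hs z hz
    rw [Tb, lk2_map (hB k hk s hs z hz)]
    simp only [Nat.unpair_pair, newval, ev]
    by_cases h0 : k % 2 = 0
    · rw [if_pos h0, if_pos h0]
      exact ih _ (by omega) s hs z hz
    · rw [if_neg h0, if_neg h0]
      have h1 : k / 2 + 1 ≤ K := by omega
      have h2 : k / 2 ≤ K := by omega
      have hmod : ∀ s' ≤ s, ∀ τ, τ % 2 ^ s' < 2 ^ S := by
        intro s' hs' τ
        exact lt_of_lt_of_le (Nat.mod_lt _ (by positivity))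
          (Nat.pow_le_pow_right (by norm_num) (by omega))
      refine Prod.ext ?_ ?_
      · apply oG_congr
        intro τ _
        apply LU_congr
        · intro s' hs'; rw [ih _ h1 s' (by omega) _ (hmod s' hs' τ)]
        · intro s' hs'; rw [ih _ h2 s' (by omega) _ (hmod s' hs' τ)]
      · apply oG_congr
        intro τ _
        apply LW_congr
        · intro s' hs'; rw [ih _ h1 s' (by omega) _ (hmod s' hs' τ)]
        · intro s' hs'; rw [ih _ h2 s' (by omega) _ (hmod s' hs' τ)]

theorem pair_mono {a b c d : ℕ} (h1 : a ≤ c) (h2 : b ≤ d) : Nat.pair a b ≤ Nat.pair c d := by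
  refine le_trans (b := Nat.pair c b) ?_ ?_
  · rcases h1.lt_or_eq with h | rfl
    · exact (Nat.pair_lt_pair_left _ h).le
    · exact le_rfl
  · rcases h2.lt_or_eq with h | rfl
    · exact (Nat.pair_lt_pair_right _ h).le
    · exact le_rfl

/-- a sufficiently large table -/
def Bd (k s z : ℕ) : ℕ := Nat.pair (k + 1) (Nat.pair (s + z) (2 ^ (s + z))) + 1

theorem ev_eq (κ m k s z : ℕ) : ev cf th κ m k s z = lk2 (Tb cf th κ (Bd k s z) m) k s z := by
  symm
  apply lk2_Tb (K := k + 1) (S := s + z) (by omega)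
  · intro k' hk' s' hs' z' hz'
    unfold Bd
    have := pair_mono hk' (pair_mono hs' hz'.le)
    omega
  · omega
  · omega
  · exact lt_of_lt_of_le Nat.lt_two_pow_self (Nat.pow_le_pow_right (by norm_num) (by omega))

section comp

variable {α : Type} [Primcodable α]

theorem clk2 {l : α → List (Bool × Bool)} {k s z : α → ℕ} (hl : Computable l)
    (hk : Computable k) (hs : Computable s) (hz : Computable z) :
    Computable fun a => lk2 (l a) (k a) (s a) (z a) := by
  unfold lk2
  exact cgetD hl (by fun_prop)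

theorem CD.cnewval (h : CD cf th) {l : α → List (Bool × Bool)} {k s z : α → ℕ}
    (hl : Computable l) (hk : Computable k) (hs : Computable s) (hz : Computable z) :
    Computable fun a => newval cf th (l a) (k a) (s a) (z a) := by
  unfold newval
  refine cite (cp_eq (by fun_prop) (by fun_prop)) (clk2 hl (by fun_prop) hs hz) ?_
  have h1 : Computable fun p : (α × (ℕ × ℕ)) × (ℕ × ℕ) =>
      (lk2 (l p.1.1) (k p.1.1 / 2 + 1) p.2.1 p.2.2).1 :=
    cfst (clk2 (by fun_prop) (by fun_prop) (by fun_prop) (by fun_prop))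
  have h2 : Computable fun p : (α × (ℕ × ℕ)) × (ℕ × ℕ) =>
      (lk2 (l p.1.1) (k p.1.1 / 2) p.2.1 p.2.2).2 :=
    csnd (clk2 (by fun_prop) (by fun_prop) (by fun_prop) (by fun_prop))
  refine cpair ?_ ?_
  · refine h.coG (G := fun a => LU (fun s z => (lk2 (l a) (k a / 2 + 1) s z).1)
      (fun s z => (lk2 (l a) (k a / 2) s z).2)) ?_ hs hz
    exact cLU (u := fun (p : α × (ℕ × ℕ)) s z => (lk2 (l p.1) (k p.1 / 2 + 1) s z).1)
      (w := fun (p : α × (ℕ × ℕ)) s z => (lk2 (l p.1) (k p.1 / 2) s z).2) h1 h2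
      (by fun_prop) (by fun_prop)
  · refine h.coG (G := fun a => LW (fun s z => (lk2 (l a) (k a / 2 + 1) s z).1)
      (fun s z => (lk2 (l a) (k a / 2) s z).2)) ?_ hs hz
    exact cLW (u := fun (p : α × (ℕ × ℕ)) s z => (lk2 (l p.1) (k p.1 / 2 + 1) s z).1)
      (w := fun (p : α × (ℕ × ℕ)) s z => (lk2 (l p.1) (k p.1 / 2) s z).2) h1 h2
      (by fun_prop) (by fun_prop)

theorem CD.cbase (h : CD cf th) {κ k s z : α → ℕ}
    (hκ : Computable κ) (hk : Computable k) (hs : Computable s) (hz : Computable z) :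
    Computable fun a => base cf th (κ a) (k a) (s a) (z a) := by
  unfold base u0 w0
  have h1 : Computable fun a => th (s a) (z a) (κ a).unpair.1 := h.cth hs hz (by fun_prop)
  have h2 : Computable fun a => th (κ a).unpair.2.unpair.1 (κ a).unpair.2.unpair.2
      (κ a).unpair.1 := h.cth (by fun_prop) (by fun_prop) (by fun_prop)
  have h3 : Computable fun a => oG cf th (G0 (κ a)) (s a) (z a) := by
    refine h.coG (G := fun a => G0 (κ a)) ?_ hs hz
    unfold G0
    have e1 : Computable fun p : α × (ℕ × ℕ) => (κ p.1).unpair.2.unpair := by fun_prop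
    have e2 : Computable fun p : α × (ℕ × ℕ) => 2 ^ (κ p.1).unpair.2.unpair.1 := pow_comp' (cfst e1)
    exact cand (cdle (cfst e1) (by fun_prop))
      (cnot (cdeq (cmod' (by fun_prop) e2) (csnd e1)))
  exact cpair (cand (by fun_prop) h1) (cand (by fun_prop) (cor (cnot h2) h3))

theorem CD.cTb (h : CD cf th) {κ B m : α → ℕ}
    (hκ : Computable κ) (hB : Computable B) (hm : Computable m) :
    Computable fun a => Tb cf th (κ a) (B a) (m a) := by
  have h0 : Computable fun a => (List.range (B a)).map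
      (fun i => base cf th (κ a) i.unpair.1 i.unpair.2.unpair.1 i.unpair.2.unpair.2) := by
    refine cmap (g := fun a (i : ℕ) => base cf th (κ a) i.unpair.1 i.unpair.2.unpair.1
      i.unpair.2.unpair.2) (by fun_prop) ?_
    exact h.cbase (by fun_prop) (by fun_prop) (by fun_prop) (by fun_prop)
  have h1 : Computable₂ fun (a : α) (y : ℕ × List (Bool × Bool)) => (List.range (B a)).map
      (fun i => newval cf th y.2 i.unpair.1 i.unpair.2.unpair.1 i.unpair.2.unpair.2) := by
    unfold Computable₂
    refine cmap (l := fun p : α × (ℕ × List (Bool × Bool)) => List.range (B p.1))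
      (g := fun p (i : ℕ) => newval cf th p.2.2 i.unpair.1 i.unpair.2.unpair.1
      i.unpair.2.unpair.2) (by fun_prop) ?_
    exact h.cnewval (by fun_prop) (by fun_prop) (by fun_prop) (by fun_prop)
  refine (Computable.nat_rec hm h0 h1).of_eq fun a => ?_
  generalize m a = n
  induction n with
  | zero => rfl
  | succ n ih => rw [Tb]; simp only [← ih]

theorem CD.cev (h : CD cf th) {κ m k s z : α → ℕ} (hκ : Computable κ) (hm : Computable m)
    (hk : Computable k) (hs : Computable s) (hz : Computable z) :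
    Computable fun a => ev cf th (κ a) (m a) (k a) (s a) (z a) := by
  have h1 : Computable fun a => Bd (k a) (s a) (z a) := by unfold Bd; fun_prop
  refine (clk2 (h.cTb hκ h1 hm) hk hs hz).of_eq fun a => (ev_eq _ _ _ _ _).symm

end comp

end Q206.ATot
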