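import Pool.Agent.Q206.ATot.Space

/-!
# Urysohn functions
-/

namespace Q206.ATot

open Pool.Agent.Helper446.RE

/-- base event -/
def u0 (th : ℕ → ℕ → ℕ → Bool) (κ s z : ℕ) : Bool := th s z κ.unpair.1

/-- base event -/
def G0 (κ s τ : ℕ) : Bool :=
  decide (κ.unpair.2.unpair.1 ≤ s) &&
    !(decide (τ % 2 ^ κ.unpair.2.unpair.1 = κ.unpair.2.unpair.2))

/-- base event -/
def w0 (cf : ℕ → ℕ → Bool) (th : ℕ → ℕ → ℕ → Bool) (κ s z : ℕ) : Bool :=
  !(th κ.unpair.2.unpair.1 κ.unpair.2.unpair.2 κ.unpair.1) || oG cf th (G0 κ) s z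

/-- the events for the threshold `k / 2 ^ m` -/
def ev (cf : ℕ → ℕ → Bool) (th : ℕ → ℕ → ℕ → Bool) (κ : ℕ) : ℕ → ℕ → ℕ → ℕ → Bool × Bool
  | 0 => fun k s z => (decide (k = 1) && u0 th κ s z, decide (k = 0) && w0 cf th κ s z)
  | m + 1 => fun k s z => if k % 2 = 0 then ev cf th κ m (k / 2) s z else
    (oG cf th (LU (fun s z => (ev cf th κ m (k / 2 + 1) s z).1)
      (fun s z => (ev cf th κ m (k / 2) s z).2)) s z,
     oG cf th (LW (fun s z => (ev cf th κ m (k / 2 + 1) s z).1)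
      (fun s z => (ev cf th κ m (k / 2) s z).2)) s z)

/-- upper event -/
def UU (cf : ℕ → ℕ → Bool) (th : ℕ → ℕ → ℕ → Bool) (κ m k s z : ℕ) : Bool :=
  (ev cf th κ m k s z).1

/-- lower event -/
def WW (cf : ℕ → ℕ → Bool) (th : ℕ → ℕ → ℕ → Bool) (κ m k s z : ℕ) : Bool :=
  (ev cf th κ m k s z).2

variable {E : Set ℕ} {cf : ℕ → ℕ → Bool} {th : ℕ → ℕ → ℕ → Bool} {κ : ℕ}

theorem UU_even (m k : ℕ) : UU cf th κ (m + 1) (2 * k) = UU cf th κ m k := by
  funext s z
  unfold UU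
  simp [ev]

theorem WW_even (m k : ℕ) : WW cf th κ (m + 1) (2 * k) = WW cf th κ m k := by
  funext s z
  unfold WW
  simp [ev]

theorem UU_odd (m k : ℕ) : UU cf th κ (m + 1) (2 * k + 1) =
    oG cf th (LU (UU cf th κ m (k + 1)) (WW cf th κ m k)) := by
  funext s z
  have h1 : (2 * k + 1) % 2 ≠ 0 := by omega
  have h2 : (2 * k + 1) / 2 = k := by omega
  unfold UU WW
  simp only [ev, if_neg h1, h2]

theorem WW_odd (m k : ℕ) : WW cf th κ (m + 1) (2 * k + 1) =
    oG cf th (LW (UU cf th κ m (k + 1)) (WW cf th κ m k)) := by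
  funext s z
  have h1 : (2 * k + 1) % 2 ≠ 0 := by omega
  have h2 : (2 * k + 1) / 2 = k := by omega
  unfold UU WW
  simp only [ev, if_neg h1, h2]

theorem G0_mono (κ : ℕ) : Mono (G0 κ) := by
  intro s s' z h h1
  unfold G0 at h1 ⊢
  simp only [Bool.and_eq_true, decide_eq_true_eq, Bool.not_eq_true', decide_eq_false_iff_not]
    at h1 ⊢
  refine ⟨h1.1.trans h, ?_⟩
  rw [mod_mod_pow z h1.1] at h1
  exact h1.2

theorem sat_false {u : ℕ → ℕ → Bool} (h : ∀ s z, u s z = false) : Sat E cf u := by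
  rintro ⟨Q, _, s, hs⟩
  rw [h] at hs; simp at hs

theorem not_some_false {u : ℕ → ℕ → Bool} (h : ∀ s z, u s z = false) : ¬ Some' E cf u := by
  rintro ⟨Q, _, s, hs⟩
  rw [h] at hs; simp at hs

theorem Core.sat_u0 (h : Core E cf th) (κ : ℕ) : Sat E cf (u0 th κ) := by
  rintro ⟨Q, hQ, s, hs⟩ Q' hQ'
  exact h.complete Q' hQ'.1 hQ'.2 _ (h.sound Q hQ.1 hQ.2 s _ hs)

theorem Core.some_u0_iff (h : Core E cf th) (κ : ℕ) :
    Some' E cf (u0 th κ) ↔ κ.unpair.1 ∈ E := by
  constructor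
  · rintro ⟨Q, hQ, s, hs⟩
    exact h.sound Q hQ.1 hQ.2 s _ hs
  · intro hn
    exact ⟨_, h.pE, h.complete _ h.pE.1 h.pE.2 _ hn⟩

theorem Core.sat_w0 (h : Core E cf th) (κ : ℕ) : Sat E cf (w0 cf th κ) := by
  by_cases hth : th κ.unpair.2.unpair.1 κ.unpair.2.unpair.2 κ.unpair.1 = true
  · have : w0 cf th κ = oG cf th (G0 κ) := by
      funext s z; unfold w0; rw [hth]; simp
    rw [this]
    exact h.sat_oG (G0_mono κ)
  · intro _ Q hQ
    refine ⟨0, ?_⟩
    unfold w0
    simp only [Bool.not_eq_true] at hth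
    rw [hth]; simp

theorem Core.cover0 (h : Core E cf th) (κ : ℕ) :
    Some' E cf (u0 th κ) ∨ Some' E cf (w0 cf th κ) := by
  by_cases hth : th κ.unpair.2.unpair.1 κ.unpair.2.unpair.2 κ.unpair.1 = true
  · by_cases hn : κ.unpair.1 ∈ E
    · exact Or.inl ((h.some_u0_iff κ).2 hn)
    · right
      have : w0 cf th κ = oG cf th (G0 κ) := by
        funext s z; unfold w0; rw [hth]; simp
      rw [this, h.some_oG_iff (G0_mono κ)]
      intro Q hQ
      refine ⟨κ.unpair.2.unpair.1, ?_⟩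
      unfold G0
      simp only [le_refl, decide_true, Bool.true_and, Bool.not_eq_true', decide_eq_false_iff_not]
      rw [pre_mod Q le_rfl]
      intro hcon
      apply hn
      rw [← hcon] at hth
      exact h.sound Q hQ.1 hQ.2 _ _ hth
  · right
    refine ⟨_, h.pE, 0, ?_⟩
    unfold w0
    simp only [Bool.not_eq_true] at hth
    rw [hth]; simp

theorem Core.exists_coord (h : Core E cf th) {n : ℕ} (hn : n ∈ E) :
    ∃ κ : ℕ, κ.unpair.1 = n ∧ ¬ Some' E cf (w0 cf th κ) := by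
  obtain ⟨s, hs⟩ := h.complete _ h.pE.1 h.pE.2 n hn
  refine ⟨Nat.pair n (Nat.pair s (pre (chE E) s)), by simp, fun hcon => ?_⟩
  have : w0 cf th (Nat.pair n (Nat.pair s (pre (chE E) s))) =
      oG cf th (G0 (Nat.pair n (Nat.pair s (pre (chE E) s)))) := by
    funext t z; unfold w0; simp only [Nat.unpair_pair]; rw [hs]; simp
  rw [this, h.some_oG_iff (G0_mono _)] at hcon
  obtain ⟨t, ht⟩ := hcon _ h.pE
  unfold G0 at ht
  simp only [Nat.unpair_pair, Bool.and_eq_true, decide_eq_true_eq, Bool.not_eq_true',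
    decide_eq_false_iff_not] at ht
  apply ht.2
  exact pre_mod _ ht.1

/-- invariant of the construction -/
structure Inv (E : Set ℕ) (cf : ℕ → ℕ → Bool) (th : ℕ → ℕ → ℕ → Bool) (κ m : ℕ) : Prop where
  cover : ∀ k < 2 ^ m, Some' E cf (UU cf th κ m (k + 1)) ∨ Some' E cf (WW cf th κ m k)
  monoU : ∀ k < 2 ^ m, Some' E cf (UU cf th κ m k) → Some' E cf (UU cf th κ m (k + 1))
  monoW : ∀ k < 2 ^ m, Some' E cf (WW cf th κ m (k + 1)) → Some' E cf (WW cf th κ m k)
  satU : ∀ k ≤ 2 ^ m, Sat E cf (UU cf th κ m k)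
  satW : ∀ k ≤ 2 ^ m, Sat E cf (WW cf th κ m k)
  excl : ∀ k ≤ 2 ^ m, ¬ (Some' E cf (UU cf th κ m k) ∧ Some' E cf (WW cf th κ m k))

theorem UU_zero_zero (s z : ℕ) : UU cf th κ 0 0 s z = false := by simp [UU, ev]
theorem WW_zero_one (s z : ℕ) : WW cf th κ 0 1 s z = false := by simp [WW, ev]
theorem UU_zero_one : UU cf th κ 0 1 = u0 th κ := by funext s z; simp [UU, ev]
theorem WW_zero_zero : WW cf th κ 0 0 = w0 cf th κ := by funext s z; simp [WW, ev]

theorem Core.inv (h : Core E cf th) (κ m : ℕ) : Inv E cf th κ m := by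
  induction m with
  | zero =>
    refine ⟨?_, ?_, ?_, ?_, ?_, ?_⟩
    · intro k hk
      have : k = 0 := by simpa using hk
      subst this
      rw [zero_add, UU_zero_one, WW_zero_zero]
      exact h.cover0 κ
    · intro k hk hs
      have : k = 0 := by simpa using hk
      subst this
      exact absurd hs (not_some_false UU_zero_zero)
    · intro k hk hs
      have : k = 0 := by simpa using hk
      subst this
      exact absurd hs (not_some_false WW_zero_one)
    · intro k hk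
      have : k = 0 ∨ k = 1 := by rw [pow_zero] at hk; omega
      rcases this with rfl | rfl
      · exact sat_false UU_zero_zero
      · rw [UU_zero_one]; exact h.sat_u0 κ
    · intro k hk
      have : k = 0 ∨ k = 1 := by rw [pow_zero] at hk; omega
      rcases this with rfl | rfl
      · rw [WW_zero_zero]; exact h.sat_w0 κ
      · exact sat_false WW_zero_one
    · intro k hk
      have : k = 0 ∨ k = 1 := by rw [pow_zero] at hk; omega
      rcases this with rfl | rfl
      · exact fun hc => not_some_false UU_zero_zero hc.1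
      · exact fun hc => not_some_false WW_zero_one hc.2
  | succ m ih =>
    have hpow : 2 ^ (m + 1) = 2 * 2 ^ m := by rw [pow_succ]; ring
    refine ⟨?_, ?_, ?_, ?_, ?_, ?_⟩
    · intro k hk
      obtain ⟨l, rfl | rfl⟩ := Nat.even_or_odd' k
      · rw [UU_odd, WW_even]
        exact h.oU_or (ih.satU _ (by omega)) (ih.cover l (by omega))
      · rw [show 2 * l + 1 + 1 = 2 * (l + 1) by ring, UU_even, WW_odd]
        exact h.or_oW (ih.satW _ (by omega)) (ih.cover l (by omega))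
    · intro k hk hs
      obtain ⟨l, rfl | rfl⟩ := Nat.even_or_odd' k
      · rw [UU_even] at hs
        rw [UU_odd]
        refine (h.oU_or (ih.satU _ (by omega)) (ih.cover l (by omega))).resolve_right
          (fun hw => ih.excl l (by omega) ⟨hs, hw⟩)
      · rw [UU_odd] at hs
        rw [show 2 * l + 1 + 1 = 2 * (l + 1) by ring, UU_even]
        exact h.oU_sub hs
    · intro k hk hs
      obtain ⟨l, rfl | rfl⟩ := Nat.even_or_odd' k
      · rw [WW_odd] at hs
        rw [WW_even]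
        exact h.oW_sub hs
      · rw [show 2 * l + 1 + 1 = 2 * (l + 1) by ring, WW_even] at hs
        rw [WW_odd]
        refine (h.or_oW (ih.satW _ (by omega)) (ih.cover l (by omega))).resolve_left
          (fun hu => ih.excl (l + 1) (by omega) ⟨hu, hs⟩)
    · intro k hk
      obtain ⟨l, rfl | rfl⟩ := Nat.even_or_odd' k
      · rw [UU_even]; exact ih.satU _ (by omega)
      · rw [UU_odd]; exact h.sat_oG (LU_mono _ _)
    · intro k hk
      obtain ⟨l, rfl | rfl⟩ := Nat.even_or_odd' k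
      · rw [WW_even]; exact ih.satW _ (by omega)
      · rw [WW_odd]; exact h.sat_oG (LW_mono _ _)
    · intro k hk
      obtain ⟨l, rfl | rfl⟩ := Nat.even_or_odd' k
      · rw [UU_even, WW_even]; exact ih.excl _ (by omega)
      · rw [UU_odd, WW_odd]
        exact fun hc => h.not_both hc.1 hc.2

theorem Inv.monoU' {m : ℕ} (h : Inv E cf th κ m) {k k' : ℕ} (hk : k ≤ k') (hk' : k' ≤ 2 ^ m)
    (hs : Some' E cf (UU cf th κ m k)) : Some' E cf (UU cf th κ m k') := by
  induction k', hk using Nat.le_induction with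
  | base => exact hs
  | succ k' _ ih => exact h.monoU k' (by omega) (ih (by omega))

theorem Inv.monoW' {m : ℕ} (h : Inv E cf th κ m) {k k' : ℕ} (hk : k ≤ k') (hk' : k' ≤ 2 ^ m)
    (hs : Some' E cf (WW cf th κ m k')) : Some' E cf (WW cf th κ m k) := by
  induction k', hk using Nat.le_induction with
  | base => exact hs
  | succ k' _ ih => exact ih (by omega) (h.monoW k' (by omega) hs)

theorem UU_shift (m k j : ℕ) : UU cf th κ (m + j) (k * 2 ^ j) = UU cf th κ m k := by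
  induction j with
  | zero => simp
  | succ j ih =>
    rw [show k * 2 ^ (j + 1) = 2 * (k * 2 ^ j) by rw [pow_succ]; ring, ← add_assoc, UU_even, ih]

theorem WW_shift (m k j : ℕ) : WW cf th κ (m + j) (k * 2 ^ j) = WW cf th κ m k := by
  induction j with
  | zero => simp
  | succ j ih =>
    rw [show k * 2 ^ (j + 1) = 2 * (k * 2 ^ j) by rw [pow_succ]; ring, ← add_assoc, WW_even, ih]

theorem Core.lt_of_both (h : Core E cf th) {m k m' k' : ℕ} (hk' : k' ≤ 2 ^ m')
    (h1 : Some' E cf (UU cf th κ m k)) (h2 : Some' E cf (WW cf th κ m' k')) :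
    k' * 2 ^ m < k * 2 ^ m' := by
  by_contra hcon
  push Not at hcon
  have hle : k' * 2 ^ m ≤ 2 ^ (m + m') := by
    rw [pow_add, mul_comm]
    exact Nat.mul_le_mul_left _ hk'
  rw [← UU_shift m k m'] at h1
  rw [← WW_shift m' k' m, add_comm m' m] at h2
  exact (h.inv κ (m + m')).excl _ hle ⟨(h.inv κ (m + m')).monoU' hcon hle h1, h2⟩

/-- the set whose supremum is the value of the Urysohn function -/
def XS (E : Set ℕ) (cf : ℕ → ℕ → Bool) (th : ℕ → ℕ → ℕ → Bool) (κ : ℕ) : Set ℝ :=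
  {r | r = 0 ∨ ∃ m k : ℕ, k ≤ 2 ^ m ∧ Some' E cf (WW cf th κ m k) ∧ r = k / 2 ^ m}

/-- the value of the Urysohn function -/
noncomputable def xv (E : Set ℕ) (cf : ℕ → ℕ → Bool) (th : ℕ → ℕ → ℕ → Bool) (κ : ℕ) : ℝ :=
  sSup (XS E cf th κ)

theorem XS_le {r : ℝ} (hr : r ∈ XS E cf th κ) : r ≤ 1 := by
  rcases hr with rfl | ⟨m, k, hk, -, rfl⟩
  · norm_num
  · rw [div_le_one (by positivity)]
    exact_mod_cast hk

theorem XS_bdd : BddAbove (XS E cf th κ) := ⟨1, fun _ hr => XS_le hr⟩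

theorem XS_ne : (XS E cf th κ).Nonempty := ⟨0, Or.inl rfl⟩

theorem xv_nonneg : 0 ≤ xv E cf th κ := le_csSup XS_bdd (Or.inl rfl)

theorem xv_le_one : xv E cf th κ ≤ 1 := csSup_le XS_ne fun _ hr => XS_le hr

theorem lt_xv_iff {p : ℝ} : p < xv E cf th κ ↔
    p < 0 ∨ ∃ m k : ℕ, k ≤ 2 ^ m ∧ Some' E cf (WW cf th κ m k) ∧ p < (k : ℝ) / 2 ^ m := by
  unfold xv
  rw [lt_csSup_iff XS_bdd XS_ne]
  constructor
  · rintro ⟨r, rfl | ⟨m, k, hk, hs, rfl⟩, hp⟩
    · exact Or.inl hp
    · exact Or.inr ⟨m, k, hk, hs, hp⟩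
  · rintro (hp | ⟨m, k, hk, hs, hp⟩)
    · exact ⟨0, Or.inl rfl, hp⟩
    · exact ⟨_, Or.inr ⟨m, k, hk, hs, rfl⟩, hp⟩

theorem Core.xv_le (h : Core E cf th) {m k : ℕ}
    (hs : Some' E cf (UU cf th κ m k)) : xv E cf th κ ≤ (k : ℝ) / 2 ^ m := by
  apply csSup_le XS_ne
  rintro r (rfl | ⟨m', k', hk', hs', rfl⟩)
  · positivity
  · have h1 := h.lt_of_both hk' hs hs'
    rw [div_le_div_iff₀ (by positivity) (by positivity)]
    exact_mod_cast h1.le

theorem Core.xv_lt_iff (h : Core E cf th) {p : ℝ} : xv E cf th κ < p ↔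
    1 < p ∨ ∃ m k : ℕ, k ≤ 2 ^ m ∧ Some' E cf (UU cf th κ m k) ∧ (k : ℝ) / 2 ^ m < p := by
  constructor
  · intro hx
    by_cases hp : 1 < p
    · exact Or.inl hp
    · right
      push Not at hp
      obtain ⟨m, hm⟩ := exists_pow_lt_of_lt_one (sub_pos.2 hx) (by norm_num : (1 / 2 : ℝ) < 1)
      have hP : (0 : ℝ) < 2 ^ m := by positivity
      have hx0 := xv_nonneg (E := E) (cf := cf) (th := th) (κ := κ)
      set X := xv E cf th κ with hX
      -- choose `k` with `X < k / 2 ^ m'` and `(k + 1) / 2 ^ m' < p`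
      obtain ⟨m', hm'⟩ : ∃ m' : ℕ, 2 < (p - X) * 2 ^ m' := by
        refine ⟨m + 1, ?_⟩
        have h2 : (1 / 2 : ℝ) ^ m * 2 ^ m = 1 := by
          rw [← mul_pow]; norm_num
        have h3 : 1 < (p - X) * 2 ^ m := by
          rw [← h2]; exact mul_lt_mul_of_pos_right hm hP
        rw [pow_succ]; linarith
      have hP' : (0 : ℝ) < 2 ^ m' := by positivity
      set k := ⌊X * 2 ^ m'⌋₊ with hk
      have hk1 : (k : ℝ) ≤ X * 2 ^ m' := Nat.floor_le (by positivity)
      have hk2 : X * 2 ^ m' < k + 1 := Nat.lt_floor_add_one _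
      have hlt : ((k + 2 : ℕ) : ℝ) < p * 2 ^ m' := by
        push_cast
        nlinarith
      have hle : k + 1 < 2 ^ m' := by
        have : ((k + 2 : ℕ) : ℝ) < ((2 ^ m' : ℕ) : ℝ) := by
          refine hlt.trans_le ?_
          push_cast
          nlinarith
        have := Nat.cast_lt.1 this
        omega
      have hnw : ¬ Some' E cf (WW cf th κ m' (k + 1)) := by
        intro hs
        have : ((k + 1 : ℕ) : ℝ) / 2 ^ m' ≤ X :=
          le_csSup XS_bdd (Or.inr ⟨m', k + 1, hle.le, hs, rfl⟩)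
        rw [div_le_iff₀ hP'] at this
        push_cast at this
        linarith
      have hu := ((h.inv κ m').cover (k + 1) hle).resolve_right hnw
      refine ⟨m', k + 1 + 1, by omega, hu, ?_⟩
      rw [div_lt_iff₀ hP']
      exact hlt
  · rintro (hp | ⟨m, k, hk, hs, hp⟩)
    · exact lt_of_le_of_lt xv_le_one hp
    · exact lt_of_le_of_lt (h.xv_le hs) hp

theorem Core.xv_lt_one_imp (h : Core E cf th) (hx : xv E cf th κ < 1) : κ.unpair.1 ∈ E := by
  rw [h.xv_lt_iff] at hx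
  rcases hx with hx | ⟨m, k, hk, hs, -⟩
  · exact absurd hx (lt_irrefl _)
  · have h1 := (h.inv κ m).monoU' hk le_rfl hs
    have h2 := UU_shift (cf := cf) (th := th) (κ := κ) 0 1 m
    rw [zero_add, one_mul] at h2
    rw [h2, UU_zero_one] at h1
    exact (h.some_u0_iff κ).1 h1

theorem Core.exists_xv_lt_one (h : Core E cf th) {n : ℕ} (hn : n ∈ E) :
    ∃ κ : ℕ, κ.unpair.1 = n ∧ xv E cf th κ < 1 := by
  obtain ⟨κ, hκ, hw⟩ := h.exists_coord hn
  refine ⟨κ, hκ, ?_⟩
  have h1 : xv E cf th κ ≤ 0 := by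
    apply csSup_le XS_ne
    rintro r (rfl | ⟨m, k, hk, hs, rfl⟩)
    · exact le_rfl
    · exfalso
      have h1 := (h.inv κ m).monoW' (Nat.zero_le k) hk hs
      have h2 := WW_shift (cf := cf) (th := th) (κ := κ) 0 0 m
      rw [zero_add, zero_mul] at h2
      rw [h2, WW_zero_zero] at h1
      exact hw h1
  linarith

end Q206.ATot
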